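import Mathlib
import Pool.Agent.Q236.CR.Stm3

set_option autoImplicit false

namespace Pool.Agent.Q151.CR

open Finset Filter
open Pool.Agent.Q236.CR (BX SB pv BadN S_BAD)

/-- bad values -/
def Bv (H : ℕ) (v : ℤ) : Prop := v.natAbs ^ 2 ≤ H ∨ ∃ a m : ℕ, 2 ≤ m ∧ a ^ m = v.natAbs

lemma cnt_root (S : Finset ℕ) (N : ℕ) (h : ∀ a ∈ S, ∀ b ∈ S, a ≤ b → (b - a) ^ 2 ≤ N) :
    S.card ≤ Nat.sqrt N + 1 := by
  rcases S.eq_empty_or_nonempty with hS | hS
  · rw [hS]; simp
  · have h1 : S ⊆ Icc (S.min' hS) (S.min' hS + Nat.sqrt N) := by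
      intro b hb
      rw [mem_Icc]
      have h2 := S.min'_le b hb
      refine ⟨h2, ?_⟩
      have h3 := h _ (S.min'_mem hS) b hb h2
      have h4 : b - S.min' hS ≤ Nat.sqrt N := Nat.le_sqrt'.2 h3
      omega
    refine (card_le_card h1).trans ?_
    rw [Nat.card_Icc]
    omega

open Classical in
lemma cnt_pow (T : ℤ) (H m : ℕ) (hm : 2 ≤ m) (σ : ℤ) (hσ : σ = 1 ∨ σ = -1) :
    ((Icc (T - H) (T + H)).filter (fun v : ℤ => 0 ≤ σ * v ∧ ∃ a : ℕ, a ^ m = v.natAbs)).card ≤ Nat.sqrt (2 * H) + 1 := by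
  set F := (Icc (T - H) (T + H)).filter (fun v : ℤ => 0 ≤ σ * v ∧ ∃ a : ℕ, a ^ m = v.natAbs) with hF
  have hex : ∀ v ∈ F, ∃ a : ℕ, a ^ m = v.natAbs := fun v hv => by
    rw [hF, mem_filter] at hv; exact hv.2.2
  choose! r hr using hex
  have habs : ∀ v ∈ F, (v.natAbs : ℤ) = σ * v := by
    intro v hv
    rw [hF, mem_filter] at hv
    have h1 := hv.2.1
    rcases hσ with h | h <;> subst h <;> omega
  have hinj : Set.InjOn r F := by
    intro v hv w hw hvw
    have h1 : v.natAbs = w.natAbs := by rw [← hr v hv, ← hr w hw, hvw]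
    have h2 := habs v hv
    have h3 := habs w hw
    rcases hσ with h | h <;> subst h <;> omega
  rw [← card_image_of_injOn hinj]
  apply cnt_root
  intro a ha b hb hab
  rw [mem_image] at ha hb
  obtain ⟨v, hv, rfl⟩ := ha
  obtain ⟨w, hw, rfl⟩ := hb
  have h1 : r v ^ m + (r w - r v) ^ m ≤ r w ^ m := by
    have := pow_add_pow_le (Nat.zero_le (r v)) (Nat.zero_le (r w - r v)) (show m ≠ 0 by omega)
    rwa [Nat.add_sub_cancel' hab] at this
  have h2 : (r w - r v) ^ 2 ≤ (r w - r v) ^ m := by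
    rcases Nat.eq_zero_or_pos (r w - r v) with h | h
    · rw [h]; simp
    · exact Nat.pow_le_pow_right h hm
  rw [hr v hv, hr w hw] at h1
  have h3 := habs v hv
  have h4 := habs w hw
  rw [hF, mem_filter, mem_Icc] at hv hw
  have h5 : w.natAbs ≤ v.natAbs + 2 * H := by
    rcases hσ with h | h <;> subst h <;> omega
  omega

open Classical in
lemma cnt_bad (T : ℤ) (H X : ℕ) (hH : 1 ≤ H) (hX : ∀ v ∈ Icc (T - H) (T + H), v.natAbs ≤ X) :
    ((Icc (T - H) (T + H)).filter (fun v : ℤ => Bv H v)).card ≤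
      (2 * Nat.sqrt H + 1) + (Nat.log 2 X + 1) * (2 * (Nat.sqrt (2 * H) + 1)) := by
  have hsub : (Icc (T - H) (T + H)).filter (fun v : ℤ => Bv H v) ⊆
      Icc (-(Nat.sqrt H : ℤ)) (Nat.sqrt H) ∪ ((range (Nat.log 2 X + 1)).filter (fun m => 2 ≤ m)).biUnion (fun m =>
        (Icc (T - H) (T + H)).filter (fun v : ℤ => 0 ≤ (1 : ℤ) * v ∧ ∃ a : ℕ, a ^ m = v.natAbs) ∪
        (Icc (T - H) (T + H)).filter (fun v : ℤ => 0 ≤ (-1 : ℤ) * v ∧ ∃ a : ℕ, a ^ m = v.natAbs)) := by
    intro v hv
    rw [mem_filter] at hv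
    obtain ⟨hv1, hv2⟩ := hv
    have hsm : v.natAbs ^ 2 ≤ H → v ∈ Icc (-(Nat.sqrt H : ℤ)) (Nat.sqrt H) := by
      intro h
      have h1 := Nat.le_sqrt'.2 h
      rw [mem_Icc]
      omega
    rw [mem_union]
    rcases hv2 with h | ⟨a, m, hm, ham⟩
    · left; exact hsm h
    · by_cases ha : a ≤ 1
      · left
        apply hsm
        have h1 : v.natAbs ≤ 1 := by
          rw [← ham]
          exact pow_le_one₀ (Nat.zero_le _) ha
        calc v.natAbs ^ 2 ≤ 1 ^ 2 := Nat.pow_le_pow_left h1 2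
          _ ≤ H := by simpa using hH
      · right
        rw [mem_biUnion]
        refine ⟨m, ?_, ?_⟩
        · rw [mem_filter, mem_range]
          refine ⟨?_, hm⟩
          have h1 : 2 ^ m ≤ X := by
            calc 2 ^ m ≤ a ^ m := Nat.pow_le_pow_left (by omega) m
              _ = v.natAbs := ham
              _ ≤ X := hX v hv1
          have h2 : m ≤ Nat.log 2 X := Nat.le_log_of_pow_le (by norm_num) h1
          omega
        · rw [mem_union, mem_filter, mem_filter]
          rcases le_total 0 v with h | h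
          · left; exact ⟨hv1, by omega, a, ham⟩
          · right; exact ⟨hv1, by omega, a, ham⟩
  refine (card_le_card hsub).trans ?_
  refine (card_union_le _ _).trans ?_
  apply Nat.add_le_add
  · rw [Int.card_Icc]; omega
  · refine (card_biUnion_le_card_mul _ _ (2 * (Nat.sqrt (2 * H) + 1)) ?_).trans ?_
    · intro m hm
      rw [mem_filter] at hm
      refine (card_union_le _ _).trans ?_
      have h1 := cnt_pow T H m hm.2 1 (Or.inl rfl)
      have h2 := cnt_pow T H m hm.2 (-1) (Or.inr rfl)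
      omega
    · apply Nat.mul_le_mul_right
      refine (card_filter_le _ _).trans ?_
      rw [card_range]

lemma pv_update (s : ℕ) (g : ℕ → ℤ) (u : Fin (s + 2) → ℤ) (n : ℕ) (a : ℤ) :
    pv s g (Function.update u 0 a) n = pv s g (Function.update u 0 0) n + a := by
  unfold pv
  have h : ∀ (b : ℤ) (i : Fin (s + 1)), Function.update u 0 b i.succ = u i.succ := by
    intro b i
    rw [Function.update_of_ne (Fin.succ_ne_zero i)]
  have e : ∀ b : ℤ, ∑ l, Function.update u 0 b l * (n : ℤ) ^ (l : ℕ) =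
      b + ∑ l : Fin (s + 1), u l.succ * (n : ℤ) ^ ((l.succ : Fin (s + 2)) : ℕ) := by
    intro b
    rw [Fin.sum_univ_succ]
    simp only [h, Function.update_self, Fin.val_zero, pow_zero, mul_one]
  rw [e, e]
  ring

lemma pv_abs (s : ℕ) (g : ℕ → ℤ) (u : Fin (s + 2) → ℤ) (n H : ℕ) (hn : 1 ≤ n) (hnH : n ≤ H) (hH : s + 3 ≤ H)
    (hu : ∀ l, |u l| ≤ H) (hg : |g n| ≤ H * (n : ℤ) ^ (s + 1)) : (pv s g u n).natAbs ≤ H ^ (s + 3) := by
  have h1 : |pv s g u n| ≤ (s + 3) * (H * (n : ℤ) ^ (s + 1)) := by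
    unfold pv
    refine (abs_add_le _ _).trans ?_
    have h2 : |∑ l, u l * (n : ℤ) ^ (l : ℕ)| ≤ (s + 2) * (H * (n : ℤ) ^ (s + 1)) := by
      refine (abs_sum_le_sum_abs _ _).trans ?_
      have h3 : ∀ l ∈ (univ : Finset (Fin (s + 2))), |u l * (n : ℤ) ^ (l : ℕ)| ≤ H * (n : ℤ) ^ (s + 1) := by
        intro l _
        rw [abs_mul, abs_pow, Nat.abs_cast]
        apply mul_le_mul (hu l) _ (by positivity) (by positivity)
        apply pow_le_pow_right₀ (by exact_mod_cast hn)
        have := l.2; omega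
      refine (sum_le_sum h3).trans ?_
      rw [sum_const, card_univ, Fintype.card_fin, nsmul_eq_mul]
      push_cast
      exact le_rfl
    calc |g n| + |∑ l, u l * (n : ℤ) ^ (l : ℕ)| ≤ H * (n : ℤ) ^ (s + 1) + (s + 2) * (H * (n : ℤ) ^ (s + 1)) :=
          add_le_add hg h2
      _ = _ := by ring
  have h4 : ((s + 3 : ℕ) : ℤ) * (H * (n : ℤ) ^ (s + 1)) ≤ (H : ℤ) ^ (s + 3) := by
    have h5 : (s + 3) * (H * n ^ (s + 1)) ≤ H ^ (s + 3) := by
      calc (s + 3) * (H * n ^ (s + 1)) ≤ H * (H * H ^ (s + 1)) :=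
            Nat.mul_le_mul hH (Nat.mul_le_mul_left _ (Nat.pow_le_pow_left hnH _))
        _ = H ^ (s + 3) := by ring
    exact_mod_cast h5
  push_cast at h4
  have h6 : ((pv s g u n).natAbs : ℤ) ≤ (H ^ (s + 3) : ℕ) := by
    rw [Int.natCast_natAbs]; push_cast; linarith
  exact_mod_cast h6

open Classical in
/-- averaging over the constant coefficient of the `i`-th polynomial -/
lemma avg {k : ℕ} (s : Fin k → ℕ) (H : ℕ) (i : Fin k) (Bd : (Fin (s i + 2) → ℤ) → Prop) (N : ℕ)
    (h : ∀ u ∈ BX (s i) H, ((Icc (-(H : ℤ)) H).filter (fun a => Bd (Function.update u 0 a))).card ≤ N) :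
    ((SB k s H).filter (fun c => Bd (c i))).card * (2 * H + 1) ≤ (SB k s H).card * N := by
  set I := Icc (-(H : ℤ)) H with hI
  have hIc : I.card = 2 * H + 1 := by rw [hI, Int.card_Icc]; omega
  have hmemSB : ∀ c, c ∈ SB k s H ↔ ∀ j l, c j l ∈ I := by
    intro c
    unfold SB BX
    simp only [Fintype.mem_piFinset, hI]
  have hmemBX : ∀ u : Fin (s i + 2) → ℤ, u ∈ BX (s i) H ↔ ∀ l, u l ∈ I := by
    intro u
    unfold BX
    simp only [Fintype.mem_piFinset, hI]
  have hT : ∀ c ∈ SB k s H, ∀ a ∈ I, Function.update c i (Function.update (c i) 0 a) ∈ SB k s H := by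
    intro c hc a ha
    rw [hmemSB] at hc ⊢
    intro j l
    by_cases hj : j = i
    · subst hj
      rw [Function.update_self]
      by_cases hl : l = 0
      · rw [hl, Function.update_self]; exact ha
      · rw [Function.update_of_ne hl]; exact hc _ _
    · rw [Function.update_of_ne hj]; exact hc _ _
  rw [← hIc, ← card_product]
  calc (((SB k s H).filter (fun c => Bd (c i))) ×ˢ I).card
      ≤ ((SB k s H ×ˢ I).filter (fun x : ((j : Fin k) → Fin (s j + 2) → ℤ) × ℤ =>
          Bd (Function.update (x.1 i) 0 x.2))).card := by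
        apply card_le_card_of_injOn (fun x : ((j : Fin k) → Fin (s j + 2) → ℤ) × ℤ =>
          ((Function.update x.1 i (Function.update (x.1 i) 0 x.2), x.1 i 0) : ((j : Fin k) → Fin (s j + 2) → ℤ) × ℤ))
        · intro x hx
          rw [mem_coe, mem_product, mem_filter] at hx
          rw [mem_coe, mem_filter, mem_product]
          refine ⟨⟨hT _ hx.1.1 _ hx.2, ((hmemSB _).1 hx.1.1) _ _⟩, ?_⟩
          simp only [Function.update_self, Function.update_idem, Function.update_eq_self]
          exact hx.1.2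
        · intro x hx y hy hxy
          simp only [Prod.mk.injEq] at hxy
          obtain ⟨h1, h2⟩ := hxy
          have h3 := congrFun h1 i
          rw [Function.update_self, Function.update_self] at h3
          have h4 : x.2 = y.2 := by
            have := congrFun h3 0
            rwa [Function.update_self, Function.update_self] at this
          have h5 : x.1 i = y.1 i := by
            funext l
            by_cases hl : l = 0
            · rw [hl]; exact h2
            · have := congrFun h3 l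
              rwa [Function.update_of_ne hl, Function.update_of_ne hl] at this
          have h6 : x.1 = y.1 := by
            funext j
            by_cases hj : j = i
            · rw [hj]; exact h5
            · have := congrFun h1 j
              rwa [Function.update_of_ne hj, Function.update_of_ne hj] at this
          exact Prod.ext h6 h4
    _ = ∑ c ∈ SB k s H, (I.filter (fun a => Bd (Function.update (c i) 0 a))).card := by
        rw [card_filter, sum_product]
        apply sum_congr rfl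
        intro c _
        rw [card_filter]
    _ ≤ ∑ c ∈ SB k s H, N := by
        apply sum_le_sum
        intro c hc
        apply h
        rw [hmemBX]
        exact fun l => ((hmemSB _).1 hc) _ _
    _ = (SB k s H).card * N := by rw [sum_const, smul_eq_mul]

open Classical in
lemma bad_one {k : ℕ} (s : Fin k → ℕ) (g : Fin k → ℕ → ℤ) (H : ℕ) (hs : ∀ i, s i + 3 ≤ H) (hL : 1 ≤ Real.log H)
    (hg : ∀ i, ∀ n : ℕ, 1 ≤ n → n ≤ H → |g i n| ≤ H * (n : ℤ) ^ (s i + 1)) (n : ℕ) (hn : 1 ≤ n) (hnH : n ≤ H) :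
    ((((SB k s H).filter (fun c => BadN s g c H n)).card : ℕ) : ℝ) ≤
      (SB k s H).card * ((∑ i, (12 * (s i : ℝ) + 45)) * (Real.log H / √(H : ℝ))) := by
  have hH1 : 1 ≤ H := hn.trans hnH
  have hHr : (1 : ℝ) ≤ H := by exact_mod_cast hH1
  have hsq : (1 : ℝ) ≤ √(H : ℝ) := Real.one_le_sqrt.2 hHr
  have hss : √(H : ℝ) * √(H : ℝ) = H := Real.mul_self_sqrt (by linarith)
  set L := Real.log H with hLd
  have h1 : ∀ i : Fin k, ((((SB k s H).filter (fun c => Bv H (pv (s i) (g i) (c i) n))).card : ℕ) : ℝ) ≤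
      (SB k s H).card * ((12 * (s i : ℝ) + 45) * (L / √(H : ℝ))) := by
    intro i
    set M := Nat.log 2 (H ^ (s i + 3)) with hM
    set N := (2 * Nat.sqrt H + 1) + (M + 1) * (2 * (Nat.sqrt (2 * H) + 1)) with hN
    have h2 := avg s H i (fun u => Bv H (pv (s i) (g i) u n)) N (by
      intro u hu
      unfold BX at hu
      rw [Fintype.mem_piFinset] at hu
      set T := pv (s i) (g i) (Function.update u 0 0) n with hT
      have h3 := cnt_bad T H (H ^ (s i + 3)) hH1 (by
        intro v hv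
        rw [mem_Icc] at hv
        have e : v = pv (s i) (g i) (Function.update u 0 (v - T)) n := by
          rw [pv_update, ← hT]; ring
        rw [e]
        apply pv_abs _ _ _ _ _ hn hnH (hs i) _ (hg i n hn hnH)
        intro l
        by_cases hl : l = 0
        · rw [hl, Function.update_self, abs_le]; constructor <;> linarith
        · rw [Function.update_of_ne hl, abs_le]
          have := mem_Icc.1 (hu l)
          exact this)
      refine le_trans ?_ h3
      apply card_le_card_of_injOn (fun a => T + a)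
      · intro a ha
        rw [mem_coe, mem_filter, mem_Icc] at ha
        rw [mem_coe, mem_filter, mem_Icc]
        refine ⟨⟨by linarith [ha.1.1], by linarith [ha.1.2]⟩, ?_⟩
        have h4 := ha.2
        rw [pv_update, ← hT] at h4
        exact h4
      · intro a _ b _ hab
        simpa using hab)
    have h5 : ((((SB k s H).filter (fun c => Bv H (pv (s i) (g i) (c i) n))).card : ℕ) : ℝ) * (2 * H + 1) ≤
      (SB k s H).card * N := by exact_mod_cast h2
    have hMr : (M : ℝ) ≤ 2 * (s i + 3) * L := by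
      have h6 : 2 ^ M ≤ H ^ (s i + 3) := Nat.pow_log_le_self 2 (by positivity)
      have h7 : (2 : ℝ) ^ M ≤ (H : ℝ) ^ (s i + 3) := by exact_mod_cast h6
      have h8 := Real.log_le_log (by positivity) h7
      rw [Real.log_pow, Real.log_pow] at h8
      push_cast at h8
      have h9 : (1 / 2 : ℝ) ≤ Real.log 2 := by linarith [Real.log_two_gt_d9]
      have h10 : (M : ℝ) * (1 / 2) ≤ M * Real.log 2 := mul_le_mul_of_nonneg_left h9 (Nat.cast_nonneg _)
      rw [← hLd] at h8
      linarith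
    have hs1 : ((Nat.sqrt H : ℕ) : ℝ) ≤ √(H : ℝ) := Real.nat_sqrt_le_real_sqrt
    have hs2 : ((Nat.sqrt (2 * H) : ℕ) : ℝ) ≤ 2 * √(H : ℝ) := by
      refine Real.nat_sqrt_le_real_sqrt.trans ?_
      rw [Real.sqrt_le_left (by positivity)]
      push_cast
      nlinarith
    have hNr : (N : ℝ) ≤ (12 * (s i : ℝ) + 45) * L * √(H : ℝ) := by
      rw [hN]
      push_cast
      have hs0 : (0 : ℝ) ≤ s i := Nat.cast_nonneg _
      have hM1 : (M : ℝ) + 1 ≤ (2 * s i + 7) * L := by nlinarith
      have hq : 2 * (((Nat.sqrt (2 * H) : ℕ) : ℝ) + 1) ≤ 6 * √(H : ℝ) := by linarith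
      have hp : ((M : ℝ) + 1) * (2 * (((Nat.sqrt (2 * H) : ℕ) : ℝ) + 1)) ≤ ((2 * s i + 7) * L) * (6 * √(H : ℝ)) :=
        mul_le_mul hM1 hq (by positivity) (by positivity)
      have hr : 2 * ((Nat.sqrt H : ℕ) : ℝ) + 1 ≤ 3 * (L * √(H : ℝ)) := by nlinarith
      nlinarith
    have hc0 : (0 : ℝ) ≤ (SB k s H).card := Nat.cast_nonneg _
    have h11 : ((((SB k s H).filter (fun c => Bv H (pv (s i) (g i) (c i) n))).card : ℕ) : ℝ) * H ≤
      (SB k s H).card * ((12 * (s i : ℝ) + 45) * L * √(H : ℝ)) := by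
      refine le_trans ?_ (h5.trans (mul_le_mul_of_nonneg_left hNr hc0))
      apply mul_le_mul_of_nonneg_left _ (Nat.cast_nonneg _)
      linarith
    have hH0 : (0 : ℝ) < H := by linarith
    rw [← le_div_iff₀ hH0] at h11
    refine h11.trans (le_of_eq ?_)
    have hsq0 : √(H : ℝ) ≠ 0 := by positivity
    rw [div_eq_iff hH0.ne']
    have h12 : L / √(H : ℝ) * H = L * √(H : ℝ) := by
      rw [div_mul_eq_mul_div, div_eq_iff hsq0, mul_assoc, hss]
    calc (SB k s H).card * ((12 * (s i : ℝ) + 45) * L * √(H : ℝ)) =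
        (SB k s H).card * ((12 * (s i : ℝ) + 45) * (L * √(H : ℝ))) := by ring
      _ = (SB k s H).card * ((12 * (s i : ℝ) + 45) * (L / √(H : ℝ) * H)) := by rw [h12]
      _ = _ := by ring
  have h2 : (SB k s H).filter (fun c => BadN s g c H n) ⊆ univ.biUnion (fun i => (SB k s H).filter
      (fun c => Bv H (pv (s i) (g i) (c i) n))) := by
    intro c hc
    rw [mem_filter] at hc
    obtain ⟨i, hi⟩ := hc.2
    rw [mem_biUnion]
    exact ⟨i, mem_univ _, mem_filter.2 ⟨hc.1, hi⟩⟩
  have h3 : ((((SB k s H).filter (fun c => BadN s g c H n)).card : ℕ) : ℝ) ≤ ∑ i, ((((SB k s H).filter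
      (fun c => Bv H (pv (s i) (g i) (c i) n))).card : ℕ) : ℝ) := by
    exact_mod_cast (card_le_card h2).trans card_biUnion_le
  refine h3.trans ((sum_le_sum fun i _ => h1 i).trans (le_of_eq ?_))
  rw [← mul_sum, ← sum_mul]

theorem bad : S_BAD := by
  classical
  intro k s A
  set C : ℝ := ∑ i, (12 * (s i : ℝ) + 45) with hC
  have hC0 : 0 ≤ C := by rw [hC]; positivity
  have hlim : Tendsto (fun N : ℕ => Real.log (N : ℝ)) atTop atTop :=
    Real.tendsto_log_atTop.comp (tendsto_natCast_atTop_atTop (R := ℝ))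
  have h3 := (Real.isLittleO_pow_log_id_atTop (n := 4 * A + 4)).bound
    (show (0 : ℝ) < 1 / (4 * (C + 1) ^ 2) by positivity)
  have h4 := (tendsto_natCast_atTop_atTop (R := ℝ)).eventually h3
  obtain ⟨H1, h0⟩ := Filter.eventually_atTop.1 (h4.and (hlim.eventually_ge_atTop 1))
  refine ⟨max H1 (∑ i, s i + 3), fun H hH g hg => ?_⟩
  obtain ⟨ha, hL⟩ := h0 H ((le_max_left _ _).trans hH)
  have hs : ∀ i, s i + 3 ≤ H := by
    intro i
    have h5 : s i ≤ ∑ i, s i := single_le_sum (fun _ _ => Nat.zero_le _) (mem_univ i)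
    have := (le_max_right _ _).trans hH
    omega
  have hH1 : 1 ≤ H := by
    have := (le_max_right _ _).trans hH
    omega
  have hHr : (1 : ℝ) ≤ H := by exact_mod_cast hH1
  have hH0 : (0 : ℝ) < H := by linarith
  set L := Real.log H with hLd
  have hL0 : 0 < L := by linarith
  simp only [id] at ha
  rw [Real.norm_of_nonneg (by positivity), Real.norm_of_nonneg hH0.le, one_div, inv_mul_eq_div,
    le_div_iff₀ (by positivity)] at ha
  have hsq0 : 0 < √(H : ℝ) := Real.sqrt_pos.2 hH0
  have hbig : 2 * (C + 1) * L ^ (2 * A + 2) ≤ √(H : ℝ) := by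
    apply Real.le_sqrt_of_sq_le
    refine le_trans (le_of_eq ?_) ha
    ring
  set Bd := (SB k s H).filter (fun c => ∃ K : ℕ, 1 ≤ K ∧ K ≤ H ∧ (K : ℝ) / L ^ A <
    ((((Finset.Icc 1 K).filter (fun n => BadN s g c H n)).card : ℕ) : ℝ)) with hBd
  have h5 : ∀ c ∈ Bd, 1 / L ^ A ≤ ∑ n ∈ (Icc 1 H).filter (fun n => BadN s g c H n), 1 / (n : ℝ) := by
    intro c hc
    rw [hBd, mem_filter] at hc
    obtain ⟨_, K, hK1, hKH, hK⟩ := hc
    have hK0 : (0 : ℝ) < K := by exact_mod_cast hK1
    have h6 : ∑ n ∈ (Icc 1 K).filter (fun n => BadN s g c H n), 1 / (K : ℝ) ≤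
        ∑ n ∈ (Icc 1 H).filter (fun n => BadN s g c H n), 1 / (n : ℝ) := by
      refine le_trans (sum_le_sum (g := fun n : ℕ => 1 / (n : ℝ)) ?_) ?_
      · intro n hn
        rw [mem_filter, mem_Icc] at hn
        apply one_div_le_one_div_of_le
        · exact_mod_cast hn.1.1
        · exact_mod_cast hn.1.2
      · apply sum_le_sum_of_subset_of_nonneg
        · apply filter_subset_filter
          exact Icc_subset_Icc le_rfl hKH
        · intro n _ _; positivity
    rw [sum_const, nsmul_eq_mul] at h6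
    refine le_trans ?_ h6
    rw [mul_one_div, le_div_iff₀ hK0]
    have : 1 / L ^ A * K = K / L ^ A := by ring
    rw [this]
    exact hK.le
  have h6 : (Bd.card : ℝ) * (1 / L ^ A) ≤ ∑ c ∈ SB k s H, ∑ n ∈ (Icc 1 H).filter (fun n => BadN s g c H n), 1 / (n : ℝ) := by
    rw [← nsmul_eq_mul, ← sum_const]
    refine (sum_le_sum h5).trans ?_
    apply sum_le_sum_of_subset_of_nonneg (filter_subset _ _)
    intro c _ _
    apply sum_nonneg
    intro n _; positivity
  have h7 : ∑ c ∈ SB k s H, ∑ n ∈ (Icc 1 H).filter (fun n => BadN s g c H n), 1 / (n : ℝ) =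
      ∑ n ∈ Icc 1 H, ((((SB k s H).filter (fun c => BadN s g c H n)).card : ℕ) : ℝ) * (1 / (n : ℝ)) := by
    simp only [sum_filter]
    rw [sum_comm]
    apply sum_congr rfl
    intro n _
    rw [← sum_filter, sum_const, nsmul_eq_mul]
  rw [h7] at h6
  have h8 : ∑ n ∈ Icc 1 H, ((((SB k s H).filter (fun c => BadN s g c H n)).card : ℕ) : ℝ) * (1 / (n : ℝ)) ≤
      ∑ n ∈ Icc 1 H, (SB k s H).card * (C * (L / √(H : ℝ))) * (1 / (n : ℝ)) := by
    apply sum_le_sum
    intro n hn
    rw [mem_Icc] at hn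
    exact mul_le_mul_of_nonneg_right (bad_one s g H hs hL hg n hn.1 hn.2) (by positivity)
  rw [← mul_sum] at h8
  have h9 : ∑ n ∈ Icc 1 H, 1 / (n : ℝ) ≤ 1 + L := by
    have h10 := harmonic_le_one_add_log H
    have e : ((harmonic H : ℚ) : ℝ) = ∑ n ∈ Icc 1 H, 1 / (n : ℝ) := by
      rw [harmonic_eq_sum_Icc]
      push_cast
      apply sum_congr rfl
      intro n _
      rw [one_div]
    rw [e] at h10
    exact h10
  have hcard0 : (0 : ℝ) ≤ (SB k s H).card := Nat.cast_nonneg _
  have h10 : (Bd.card : ℝ) * (1 / L ^ A) ≤ (SB k s H).card * (C * (L / √(H : ℝ))) * (1 + L) :=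
    h6.trans (h8.trans (mul_le_mul_of_nonneg_left h9 (by positivity)))
  have h11 : (Bd.card : ℝ) ≤ L ^ A * ((SB k s H).card * (C * (L / √(H : ℝ))) * (1 + L)) := by
    have h12 := mul_le_mul_of_nonneg_left h10 (show 0 ≤ L ^ A by positivity)
    refine le_trans (le_of_eq ?_) h12
    field_simp
  refine h11.trans ?_
  have h13 : L ^ A * (C * (L / √(H : ℝ)) * (1 + L)) ≤ 1 / L ^ A := by
    rw [le_div_iff₀ (by positivity)]
    have e : L ^ A * (C * (L / √(H : ℝ)) * (1 + L)) * L ^ A = (C * L ^ (2 * A + 1) * (1 + L)) / √(H : ℝ) := by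
      field_simp
      ring
    rw [e, div_le_one hsq0]
    refine le_trans ?_ hbig
    have h14 : C * L ^ (2 * A + 1) * (1 + L) ≤ (C + 1) * L ^ (2 * A + 1) * (2 * L) := by
      apply mul_le_mul _ (by linarith) (by positivity) (by positivity)
      apply mul_le_mul_of_nonneg_right (by linarith) (by positivity)
    refine h14.trans (le_of_eq ?_)
    ring
  calc L ^ A * ((SB k s H).card * (C * (L / √(H : ℝ))) * (1 + L)) =
        (SB k s H).card * (L ^ A * (C * (L / √(H : ℝ)) * (1 + L))) := by ring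
    _ ≤ (SB k s H).card * (1 / L ^ A) := mul_le_mul_of_nonneg_left h13 hcard0
    _ = _ := by rw [mul_one_div]

end Pool.Agent.Q151.CR
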