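import Mathlib
import Pool.Agent.Q236.CR.Stm3

set_option autoImplicit false

namespace Pool.Agent.Q151.CR

open Finset Filter Polynomial
open Pool.Agent.Q236.CR (pw hit omc xi rhoT SB S_VAR S_ER S_MT)
open Pool.Agent.H373R2.T7 (pz mem_pz bonf es bonf_ind bonf_bound)

open Classical in
lemma omc_le {k : ℕ} (s : Fin k → ℕ) (G : Fin k → ℤ[X]) (c : (i : Fin k) → Fin (s i + 2) → ℤ) (p : ℕ) :
    omc s G c p ≤ p := by
  unfold omc
  refine (card_filter_le _ _).trans ?_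
  rw [card_range]

/-- the truncated difference -/
noncomputable def Vr {k : ℕ} (s : Fin k → ℕ) (G : Fin k → ℤ[X]) (c : (i : Fin k) → Fin (s i + 2) → ℤ)
    (T0 : Finset ℕ) (K r : ℕ) : ℝ :=
  ∑ j ∈ Finset.range r, (-1 : ℝ) ^ j * ∑ T ∈ T0.powersetCard j,
      (∑ n ∈ Finset.Icc 1 K, xi s G c T n - K * rhoT s G c T)

noncomputable def Er {k : ℕ} (s : Fin k → ℕ) (G : Fin k → ℤ[X]) (c : (i : Fin k) → Fin (s i + 2) → ℤ)
    (T0 : Finset ℕ) (r n : ℕ) : ℝ := ∑ T ∈ T0.powersetCard r, xi s G c T n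

lemma xi_nonneg {k : ℕ} (s : Fin k → ℕ) (G : Fin k → ℤ[X]) (c : (i : Fin k) → Fin (s i + 2) → ℤ)
    (T : Finset ℕ) (n : ℕ) : 0 ≤ xi s G c T n := by
  unfold xi; split_ifs <;> norm_num

open Classical in
lemma ptw {k : ℕ} (s : Fin k → ℕ) (G : Fin k → ℤ[X]) (c : (i : Fin k) → Fin (s i + 2) → ℤ)
    (z K r : ℕ) : |((((Finset.Icc 1 K).filter (fun n : ℕ => ∀ p ∈ pz z, ¬ hit s G c p n)).card : ℕ) : ℝ) -
      K * ∏ p ∈ pz z, (1 - (omc s G c p : ℝ) / p)| ≤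
      2 * |Vr s G c (pz z) K r| + |Vr s G c (pz z) K (r + 1)| + 2 * ∑ n ∈ Icc 1 K, Er s G c (pz z) r n := by
  set T0 := pz z with hT0
  set A := ∑ n ∈ Icc 1 K, Er s G c T0 r n with hA
  -- the count
  have h1 : ((((Finset.Icc 1 K).filter (fun n : ℕ => ∀ p ∈ T0, ¬ hit s G c p n)).card : ℕ) : ℝ) =
      ∑ n ∈ Icc 1 K, (if ∀ p ∈ T0, ¬ hit s G c p n then (1 : ℝ) else 0) := by
    rw [card_filter]
    push_cast
    rfl
  have h2 : |∑ n ∈ Icc 1 K, (if ∀ p ∈ T0, ¬ hit s G c p n then (1 : ℝ) else 0) -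
      ∑ j ∈ range r, (-1 : ℝ) ^ j * ∑ T ∈ T0.powersetCard j, ∑ n ∈ Icc 1 K, xi s G c T n| ≤ A := by
    have e : ∑ j ∈ range r, (-1 : ℝ) ^ j * ∑ T ∈ T0.powersetCard j, ∑ n ∈ Icc 1 K, xi s G c T n =
        ∑ n ∈ Icc 1 K, ∑ j ∈ range r, (-1 : ℝ) ^ j * ∑ T ∈ T0.powersetCard j, xi s G c T n := by
      rw [sum_comm]
      apply sum_congr rfl
      intro j _
      rw [← mul_sum, sum_comm]
    rw [e, ← sum_sub_distrib]
    refine (abs_sum_le_sum_abs _ _).trans ?_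
    rw [hA]
    apply sum_le_sum
    intro n _
    have h := bonf_ind (fun p n => hit s G c p n) T0 r n
    unfold Er xi
    convert h
  have hx : ∀ p ∈ T0, 0 ≤ (omc s G c p : ℝ) / p ∧ (omc s G c p : ℝ) / p ≤ 1 := by
    intro p hp
    rw [hT0, mem_pz] at hp
    have hp0 : (0 : ℝ) < p := by exact_mod_cast hp.2.pos
    refine ⟨by positivity, ?_⟩
    rw [div_le_one hp0]
    exact_mod_cast omc_le s G c p
  have h3 := bonf_bound (fun p => (omc s G c p : ℝ) / p) T0 hx r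
  have h4 : es (fun p => (omc s G c p : ℝ) / p) T0 r = ∑ T ∈ T0.powersetCard r, rhoT s G c T := rfl
  have h5 : bonf (fun p => (omc s G c p : ℝ) / p) T0 r =
      ∑ j ∈ range r, (-1 : ℝ) ^ j * ∑ T ∈ T0.powersetCard j, rhoT s G c T := rfl
  rw [h4, h5] at h3
  set R := ∑ T ∈ T0.powersetCard r, rhoT s G c T with hR
  set X := ∑ j ∈ range r, (-1 : ℝ) ^ j * ∑ T ∈ T0.powersetCard j, rhoT s G c T with hX
  set Y := ∑ j ∈ range r, (-1 : ℝ) ^ j * ∑ T ∈ T0.powersetCard j, ∑ n ∈ Icc 1 K, xi s G c T n with hY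
  have h6 : Vr s G c T0 K r = Y - K * X := by
    unfold Vr
    rw [hY, hX, mul_sum, ← sum_sub_distrib]
    apply sum_congr rfl
    intro j _
    rw [sum_sub_distrib, ← mul_sum]
    ring
  have h7 : Vr s G c T0 K (r + 1) = Vr s G c T0 K r + (-1) ^ r * (A - K * R) := by
    unfold Vr
    rw [sum_range_succ, sum_sub_distrib, ← mul_sum]
    congr 3
    rw [hA]
    unfold Er
    rw [sum_comm]
  have hA0 : 0 ≤ A := by
    rw [hA]
    apply sum_nonneg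
    intro n _
    unfold Er
    exact sum_nonneg fun T _ => xi_nonneg s G c T n
  have hK0 : (0 : ℝ) ≤ K := Nat.cast_nonneg _
  have h8 : |(K : ℝ) * R| ≤ A + |Vr s G c T0 K (r + 1)| + |Vr s G c T0 K r| := by
    have h9 : |(-1 : ℝ) ^ r * (A - K * R)| = |A - K * R| := by
      rw [abs_mul, abs_pow, abs_neg, abs_one, one_pow, one_mul]
    have h10 : (-1 : ℝ) ^ r * (A - K * R) = Vr s G c T0 K (r + 1) - Vr s G c T0 K r := by rw [h7]; ring
    have h11 : |A - K * R| ≤ |Vr s G c T0 K (r + 1)| + |Vr s G c T0 K r| := by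
      rw [← h9, h10]; exact abs_sub _ _
    have h12 : (K : ℝ) * R = A - (A - K * R) := by ring
    rw [h12]
    refine (abs_sub _ _).trans ?_
    rw [abs_of_nonneg hA0]
    linarith
  have h9 : |(K : ℝ) * X - K * ∏ p ∈ T0, (1 - (omc s G c p : ℝ) / p)| ≤ |(K : ℝ) * R| := by
    rw [← mul_sub, abs_mul, abs_mul, abs_sub_comm]
    apply mul_le_mul_of_nonneg_left _ (abs_nonneg _)
    exact h3.trans (le_abs_self _)
  rw [h1]
  have h10 : ∑ n ∈ Icc 1 K, (if ∀ p ∈ T0, ¬ hit s G c p n then (1 : ℝ) else 0) -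
      K * ∏ p ∈ T0, (1 - (omc s G c p : ℝ) / p) =
      (∑ n ∈ Icc 1 K, (if ∀ p ∈ T0, ¬ hit s G c p n then (1 : ℝ) else 0) - Y) + Vr s G c T0 K r +
      (K * X - K * ∏ p ∈ T0, (1 - (omc s G c p : ℝ) / p)) := by rw [h6]; ring
  rw [h10]
  refine (abs_add_three _ _ _).trans ?_
  linarith

lemma sq_bound (D v w a : ℝ) (h : |D| ≤ 2 * |v| + |w| + 2 * a) :
    D ^ 2 ≤ 9 * (v ^ 2 + w ^ 2 + a ^ 2) := by
  have h1 : D ^ 2 ≤ (2 * |v| + |w| + 2 * a) ^ 2 := by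
    rw [← sq_abs D]
    exact pow_le_pow_left₀ (abs_nonneg _) h 2
  have h2 := sq_abs v
  have h3 := sq_abs w
  rw [← h2, ← h3]
  nlinarith [sq_nonneg (|v| - 2 * |w|), sq_nonneg (2 * |w| - a), sq_nonneg (|v| - a)]

/-- choice of the parameters -/
lemma par (k E U : ℕ) (C : ℝ) (hC : 0 ≤ C) : ∃ H0 : ℕ, ∀ H : ℕ, H0 ≤ H → 1 ≤ Real.log H ∧ ∃ r : ℕ,
    ((⌊Real.log H ^ E⌋₊ : ℝ) + 1) ^ (2 * (r + 1)) ≤ H ∧
    54 * (3 * (⌊Real.log H ^ E⌋₊ : ℝ)) ^ (3 * k) ≤ Real.log H ^ (3 * k * E + 1) ∧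
    27 * ((3 * (⌊Real.log H ^ E⌋₊ : ℝ)) ^ (7 * k) * Real.exp (-(r : ℝ))) ≤ 1 / Real.log H ^ U ∧
    3 * C * (((⌊Real.log H ^ E⌋₊ : ℝ) + 1) ^ (4 * (r + 1)) / H) ≤ 1 / Real.log H ^ U := by
  set c0 : ℕ := 7 * k * E + U + 1 with hc0
  have hlim : Tendsto (fun N : ℕ => Real.log (N : ℝ)) atTop atTop :=
    Real.tendsto_log_atTop.comp (tendsto_natCast_atTop_atTop (R := ℝ))
  have h1 : ∀ᶠ N : ℕ in atTop, 1 ≤ Real.log (Real.log N) :=
    (Real.tendsto_log_atTop.comp hlim).eventually_ge_atTop 1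
  have h2 : ∀ᶠ N : ℕ in atTop, (8 * (c0 + 2) * (E + 1)) * Real.log (Real.log N) ^ 2 ≤ Real.log N := by
    have h3 := (Real.isLittleO_pow_log_id_atTop (n := 2)).bound (show (0 : ℝ) < 1 / (8 * (c0 + 2) * (E + 1)) by positivity)
    have h4 := hlim.eventually h3
    filter_upwards [h4, hlim.eventually_ge_atTop 1] with N h5 h6
    simp only [id] at h5
    rw [Real.norm_of_nonneg (by positivity), Real.norm_of_nonneg (by linarith), one_div, inv_mul_eq_div,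
      le_div_iff₀ (by positivity)] at h5
    linarith
  have h3 : ∀ᶠ N : ℕ in atTop, (3 * C + 1) ^ 2 * Real.log N ^ (2 * U) ≤ N := by
    have h3 := (Real.isLittleO_pow_log_id_atTop (n := 2 * U)).bound (show (0 : ℝ) < 1 / ((3 * C + 1) ^ 2) by positivity)
    have h4 := (tendsto_natCast_atTop_atTop (R := ℝ)).eventually h3
    filter_upwards [h4, hlim.eventually_ge_atTop 1] with N h5 h6
    simp only [id] at h5
    rw [Real.norm_of_nonneg (by positivity), Real.norm_of_nonneg (Nat.cast_nonneg _), one_div, inv_mul_eq_div,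
      le_div_iff₀ (by positivity)] at h5
    linarith
  obtain ⟨H0, h0⟩ := Filter.eventually_atTop.1 (h1.and (h2.and (h3.and (hlim.eventually_ge_atTop
    (54 * 3 ^ (7 * k) + 54 * 3 ^ (3 * k) + 1)))))
  refine ⟨max H0 1, fun H hH => ?_⟩
  obtain ⟨ha, hb, hd, hL'⟩ := h0 H (le_trans (le_max_left _ _) hH)
  have hH1 : 1 ≤ H := le_trans (le_max_right _ _) hH
  have hHr : (0 : ℝ) < H := by exact_mod_cast hH1
  set L := Real.log H with hLd
  have h37 : (0 : ℝ) < 3 ^ (7 * k) := by positivity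
  have h33 : (0 : ℝ) < 3 ^ (3 * k) := by positivity
  have hL : 1 ≤ L := by linarith
  have hL0 : 0 < L := by linarith
  set ℓ := Real.log L with hℓ
  refine ⟨hL, ⌈(c0 : ℝ) * ℓ⌉₊, ?_⟩
  set r := ⌈(c0 : ℝ) * ℓ⌉₊ with hr
  set z := ⌊L ^ E⌋₊ with hz
  have hzL : (z : ℝ) ≤ L ^ E := Nat.floor_le (by positivity)
  have hz0 : (0 : ℝ) ≤ z := Nat.cast_nonneg _
  have hr1 : (c0 : ℝ) * ℓ ≤ r := Nat.le_ceil _
  have hr2 : (r : ℝ) + 1 ≤ (c0 + 2) * ℓ := by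
    have := (Nat.ceil_lt_add_one (show 0 ≤ (c0 : ℝ) * ℓ by positivity)).le
    rw [← hr] at this
    linarith
  have hlz : Real.log ((z : ℝ) + 1) ≤ (E + 1) * ℓ := by
    have h5 : (z : ℝ) + 1 ≤ L ^ (E + 1) := by
      have h6 : 1 ≤ L ^ E := one_le_pow₀ hL
      have h7 : 2 ≤ L := by
        have h8 : Real.exp 1 ≤ L := by
          rw [← Real.exp_log hL0]
          exact Real.exp_le_exp.2 ha
        have := Real.exp_one_gt_d9
        linarith
      rw [pow_succ]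
      nlinarith
    have h6 := Real.log_le_log (by positivity) h5
    rw [Real.log_pow] at h6
    push_cast at h6
    exact h6
  have hlz0 : 0 ≤ Real.log ((z : ℝ) + 1) := Real.log_nonneg (by linarith)
  have hW : ((z : ℝ) + 1) ^ (8 * (r + 1)) ≤ H := by
    rw [← Real.log_le_log_iff (by positivity) hHr, Real.log_pow, ← hLd]
    push_cast
    calc (8 * ((r : ℝ) + 1)) * Real.log ((z : ℝ) + 1) ≤ (8 * ((c0 + 2) * ℓ)) * ((E + 1) * ℓ) := by
          gcongr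
      _ = (8 * (c0 + 2) * (E + 1)) * ℓ ^ 2 := by ring
      _ ≤ L := hb
  refine ⟨?_, ?_, ?_, ?_⟩
  · refine le_trans ?_ hW
    apply pow_le_pow_right₀ (by linarith)
    omega
  · calc 54 * (3 * (z : ℝ)) ^ (3 * k) ≤ 54 * (3 * L ^ E) ^ (3 * k) := by gcongr
      _ = (54 * 3 ^ (3 * k)) * L ^ (3 * k * E) := by
          rw [mul_pow, ← pow_mul, mul_comm E (3 * k)]; ring
      _ ≤ L * L ^ (3 * k * E) := by
          apply mul_le_mul_of_nonneg_right _ (by positivity)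
          linarith
      _ = L ^ (3 * k * E + 1) := by rw [pow_succ]; ring
  · have he : Real.exp (-(r : ℝ)) ≤ 1 / L ^ c0 := by
      have e : 1 / L ^ c0 = Real.exp (-(c0 * ℓ)) := by
        rw [Real.exp_neg, mul_comm, Real.exp_mul, hℓ, Real.exp_log hL0, Real.rpow_natCast, one_div]
      rw [e]
      apply Real.exp_le_exp.2
      linarith
    calc 27 * ((3 * (z : ℝ)) ^ (7 * k) * Real.exp (-(r : ℝ))) ≤ 27 * ((3 * L ^ E) ^ (7 * k) * (1 / L ^ c0)) := by gcongr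
      _ = (27 * 3 ^ (7 * k)) * (L ^ (7 * k * E) / L ^ c0) := by
          rw [mul_pow, ← pow_mul, mul_comm E (7 * k)]; ring
      _ ≤ L * (L ^ (7 * k * E) / L ^ c0) := by
          apply mul_le_mul_of_nonneg_right _ (by positivity)
          linarith
      _ = 1 / L ^ U := by
          rw [hc0, pow_add, pow_add, pow_one]
          field_simp
  · set W : ℝ := ((z : ℝ) + 1) ^ (4 * (r + 1)) with hWd
    have hW2 : W ^ 2 ≤ H := by
      refine le_trans (le_of_eq ?_) hW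
      rw [hWd, ← pow_mul]
      congr 1
      ring
    have hW0 : 0 < W := by rw [hWd]; positivity
    have h5 : ((3 * C + 1) * L ^ U) ^ 2 ≤ H := by
      refine le_trans (le_of_eq ?_) hd
      ring
    have h6 : W * ((3 * C + 1) * L ^ U) ≤ H := by
      nlinarith [sq_nonneg (W - (3 * C + 1) * L ^ U)]
    rw [← mul_div_assoc, div_le_div_iff₀ hHr (by positivity), one_mul]
    have h7 : 0 < L ^ U := by positivity
    nlinarith [mul_pos hW0 h7]

theorem mt : S_VAR → S_ER → S_MT := by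
  classical
  intro hV hE k s E U
  obtain ⟨C, hC, hV⟩ := hV k s
  obtain ⟨C', hC', hE⟩ := hE k s
  obtain ⟨H0, hpar⟩ := par k E U (18 * C + 9 * C') (by positivity)
  refine ⟨3 * k * E + 1 + U, max H0 1, fun H hH G K hK hKH => ?_⟩
  obtain ⟨hL, r, p1, p2, p3, p4⟩ := hpar H ((le_max_left _ _).trans hH)
  have hH1 : 1 ≤ H := (le_max_right _ _).trans hH
  have hHr : (0 : ℝ) < H := by exact_mod_cast hH1
  set L := Real.log H with hLd
  set z := ⌊L ^ E⌋₊ with hz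
  have hL0 : 0 < L := by linarith
  have hz1 : 1 ≤ z := by
    rw [hz]; apply Nat.le_floor
    rw [Nat.cast_one]; exact one_le_pow₀ hL
  have hzr : (1 : ℝ) ≤ z := by exact_mod_cast hz1
  have hK1 : (1 : ℝ) ≤ K := le_trans (one_le_pow₀ hL) hK
  have hK0 : (0 : ℝ) < K := by linarith
  have p1' : ((z : ℝ) + 1) ^ (2 * r) ≤ H := by
    refine le_trans ?_ p1
    apply pow_le_pow_right₀ (by linarith); omega
  set W : ℝ := ((z : ℝ) + 1) ^ (4 * (r + 1)) with hW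
  have hW' : ((z : ℝ) + 1) ^ (4 * r) ≤ W := by
    rw [hW]; apply pow_le_pow_right₀ (by linarith); omega
  have hW0 : 0 < W := by rw [hW]; positivity
  have v1 := hV G H z r K hH1 hz1 p1'
  have v2 := hV G H z (r + 1) K hH1 hz1 p1
  have e1 : ∀ n : ℕ, ∑ c ∈ SB k s H, (Er s G c (pz z) r n) ^ 2 ≤
      (SB k s H).card * ((3 * (z : ℝ)) ^ (7 * k) * Real.exp (-(r : ℝ)) + C' * (((z : ℝ) + 1) ^ (4 * r) / H)) :=
    fun n => hE G H z r n hH1 hz1 p1'
  set N : ℝ := ((SB k s H).card : ℝ) with hN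
  have hN0 : 0 ≤ N := Nat.cast_nonneg _
  have hvr : ∀ ρ, ∑ c ∈ SB k s H, (Vr s G c (pz z) K ρ) ^ 2 =
      ∑ c ∈ SB k s H, (∑ j ∈ Finset.range ρ, (-1 : ℝ) ^ j * ∑ T ∈ (pz z).powersetCard j,
      (∑ n ∈ Finset.Icc 1 K, xi s G c T n - K * rhoT s G c T)) ^ 2 := fun ρ => rfl
  rw [← hvr] at v1 v2
  have hA : ∑ c ∈ SB k s H, (∑ n ∈ Icc 1 K, Er s G c (pz z) r n) ^ 2 ≤
      N * ((K : ℝ) ^ 2 * ((3 * (z : ℝ)) ^ (7 * k) * Real.exp (-(r : ℝ)) + C' * (((z : ℝ) + 1) ^ (4 * r) / H))) := by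
    have h1 : ∀ c ∈ SB k s H, (∑ n ∈ Icc 1 K, Er s G c (pz z) r n) ^ 2 ≤ K * ∑ n ∈ Icc 1 K, (Er s G c (pz z) r n) ^ 2 := by
      intro c _
      have := sq_sum_le_card_mul_sum_sq (s := Icc 1 K) (f := fun n => Er s G c (pz z) r n)
      rwa [Nat.card_Icc, Nat.add_sub_cancel] at this
    refine (sum_le_sum h1).trans ?_
    rw [← mul_sum, sum_comm]
    have h2 := sum_le_sum (s := Icc 1 K) (fun n _ => e1 n)
    rw [sum_const, Nat.card_Icc, Nat.add_sub_cancel, nsmul_eq_mul] at h2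
    refine (mul_le_mul_of_nonneg_left h2 hK0.le).trans (le_of_eq ?_)
    ring
  have hmain : ∑ c ∈ SB k s H, (((((Finset.Icc 1 K).filter (fun n : ℕ => ∀ p ∈ pz z, ¬ hit s G c p n)).card : ℕ) : ℝ) -
      K * ∏ p ∈ pz z, (1 - (omc s G c p : ℝ) / p)) ^ 2 ≤
      9 * (∑ c ∈ SB k s H, (Vr s G c (pz z) K r) ^ 2 + ∑ c ∈ SB k s H, (Vr s G c (pz z) K (r + 1)) ^ 2 +
        ∑ c ∈ SB k s H, (∑ n ∈ Icc 1 K, Er s G c (pz z) r n) ^ 2) := by
    rw [← sum_add_distrib, ← sum_add_distrib, mul_sum]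
    apply sum_le_sum
    intro c _
    apply sq_bound
    have := ptw s G c z K r
    convert this
  refine le_trans (le_of_eq ?_) (hmain.trans ?_)
  · apply sum_congr rfl
    intro c _
    congr!
  have hw1 : C' * (((z : ℝ) + 1) ^ (4 * r) / H) ≤ C' * (W / H) := by gcongr
  have hw2 : C * (K : ℝ) ^ 2 * (((z : ℝ) + 1) ^ (4 * r) / H) ≤ C * (K : ℝ) ^ 2 * (W / H) := by gcongr
  set P := (3 * (z : ℝ)) ^ (3 * k) with hP
  set Q := (3 * (z : ℝ)) ^ (7 * k) * Real.exp (-(r : ℝ)) with hQ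
  have f1 : 9 * (∑ c ∈ SB k s H, (Vr s G c (pz z) K r) ^ 2 + ∑ c ∈ SB k s H, (Vr s G c (pz z) K (r + 1)) ^ 2 +
        ∑ c ∈ SB k s H, (∑ n ∈ Icc 1 K, Er s G c (pz z) r n) ^ 2) ≤
      9 * (N * (K * P + C * (K : ℝ) ^ 2 * (W / H)) + N * (K * P + C * (K : ℝ) ^ 2 * (W / H)) +
        N * ((K : ℝ) ^ 2 * (Q + C' * (W / H)))) := by
    have g1 : N * (K * P + C * (K : ℝ) ^ 2 * (((z : ℝ) + 1) ^ (4 * r) / H)) ≤ N * (K * P + C * (K : ℝ) ^ 2 * (W / H)) := by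
      gcongr
    have g2 : N * ((K : ℝ) ^ 2 * (Q + C' * (((z : ℝ) + 1) ^ (4 * r) / H))) ≤ N * ((K : ℝ) ^ 2 * (Q + C' * (W / H))) := by
      gcongr
    linarith
  refine f1.trans ?_
  have f2 : 9 * (N * (K * P + C * (K : ℝ) ^ 2 * (W / H)) + N * (K * P + C * (K : ℝ) ^ 2 * (W / H)) +
        N * ((K : ℝ) ^ 2 * (Q + C' * (W / H)))) =
      N * (18 * P * K + (K : ℝ) ^ 2 * (9 * Q) + (K : ℝ) ^ 2 * ((18 * C + 9 * C') * (W / H))) := by ring
  rw [f2]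
  apply mul_le_mul_of_nonneg_left _ hN0
  have hLU : 0 < L ^ U := by positivity
  have t1 : 18 * P * K ≤ (K : ℝ) ^ 2 / L ^ U / 3 := by
    have h1 : 54 * P * L ^ U ≤ K := by
      calc 54 * P * L ^ U ≤ L ^ (3 * k * E + 1) * L ^ U := mul_le_mul_of_nonneg_right p2 hLU.le
        _ = L ^ (3 * k * E + 1 + U) := by rw [← pow_add]
        _ ≤ K := hK
    rw [div_div, le_div_iff₀ (by positivity)]
    nlinarith
  have t2 : (K : ℝ) ^ 2 * (9 * Q) ≤ (K : ℝ) ^ 2 / L ^ U / 3 := by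
    have h1 : 9 * Q ≤ 1 / L ^ U / 3 := by
      linarith
    calc (K : ℝ) ^ 2 * (9 * Q) ≤ (K : ℝ) ^ 2 * (1 / L ^ U / 3) := by gcongr
      _ = _ := by ring
  have t3 : (K : ℝ) ^ 2 * ((18 * C + 9 * C') * (W / H)) ≤ (K : ℝ) ^ 2 / L ^ U / 3 := by
    have h1 : (18 * C + 9 * C') * (W / H) ≤ 1 / L ^ U / 3 := by
      linarith
    calc (K : ℝ) ^ 2 * ((18 * C + 9 * C') * (W / H)) ≤ (K : ℝ) ^ 2 * (1 / L ^ U / 3) := by gcongr
      _ = _ := by ring
  linarith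

end Pool.Agent.Q151.CR
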