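import Mathlib
import Pool.Agent.Q236.CR.Stm3
import Pool.Agent.H373R2.T7.Fund
import Pool.Agent.Q24.CR.POL

set_option autoImplicit false

namespace Pool.Agent.Q151.CR

open Finset Filter Polynomial
open Pool.Agent.Q236.CR (om sing S_SLB)
open Pool.Agent.H373R2.T7 (pz Vz lamz mem_pz Vz_pos Vz_ge Vz_low)

lemma pow_low (D p : ℕ) (hp : 2 * D < p) : (1 - 1 / (p : ℝ)) ^ (2 * D) ≤ 1 - (D : ℝ) / p := by
  have hp0 : (0 : ℝ) < p := by exact_mod_cast (by omega : 0 < p)
  have hp1 : (1 : ℝ) ≤ p := by exact_mod_cast (by omega : 1 ≤ p)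
  have hpD : (2 * D : ℝ) < p := by exact_mod_cast hp
  set x : ℝ := 1 / p with hx
  have hx0 : 0 < x := by rw [hx]; positivity
  have hx1 : x ≤ 1 := by rw [hx, div_le_one hp0]; exact hp1
  have hDx : (D : ℝ) / p = D * x := by rw [hx]; ring
  have hDx2 : (D : ℝ) * x ≤ 1 / 2 := by
    rw [← hDx, div_le_iff₀ hp0]; linarith
  rw [hDx]
  have h1 : (1 - x) ^ (2 * D) ≤ Real.exp (-x) ^ (2 * D) :=
    pow_le_pow_left₀ (by linarith) (Real.one_sub_le_exp_neg x) _
  have h2 : Real.exp (-x) ^ (2 * D) = (Real.exp (2 * (D * x)))⁻¹ := by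
    rw [← Real.exp_nat_mul, ← Real.exp_neg]
    congr 1
    push_cast
    ring
  have h3 : 1 + 2 * (D * x) ≤ Real.exp (2 * (D * x)) := by
    have := Real.add_one_le_exp (2 * (D * x)); linarith
  have h0 : 0 ≤ (D : ℝ) * x := by positivity
  have h4 : (Real.exp (2 * (D * x)))⁻¹ ≤ 1 - D * x := by
    rw [inv_le_iff_one_le_mul₀ (Real.exp_pos _)]
    have : 1 ≤ (1 - D * x) * (1 + 2 * (D * x)) := by nlinarith
    calc (1 : ℝ) ≤ (1 - D * x) * (1 + 2 * (D * x)) := this
      _ ≤ (1 - D * x) * Real.exp (2 * (D * x)) := mul_le_mul_of_nonneg_left h3 (by linarith)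
  linarith

lemma sing_low {k : ℕ} (D z : ℕ) (P : Fin k → ℤ[X]) (hP : ∑ i, (P i).natDegree ≤ D)
    (hom : ∀ p : ℕ, p.Prime → om P p < p) :
    (1 / (2 * (D : ℝ) + 1)) ^ (2 * D) * Vz z ^ (2 * D) ≤ sing P z := by
  have hv : (0 : ℝ) < 1 / (2 * (D : ℝ) + 1) := by positivity
  have h1 : ∏ p ∈ pz z, ((if p ≤ 2 * D then 1 / (2 * (D : ℝ) + 1) else 1) * (1 - 1 / (p : ℝ)) ^ (2 * D)) ≤ sing P z := by
    unfold sing
    apply Finset.prod_le_prod
    · intro p hp
      have h2 : (2 : ℝ) ≤ p := by exact_mod_cast (mem_pz.1 hp).2.two_le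
      have h3 : (1 : ℝ) / p ≤ 1 := by rw [div_le_one (by linarith)]; linarith
      split_ifs
      · apply mul_nonneg hv.le
        apply pow_nonneg; linarith
      · apply mul_nonneg zero_le_one
        apply pow_nonneg; linarith
    · intro p hp
      have hpp := (mem_pz.1 hp).2
      have h2 : (2 : ℝ) ≤ p := by exact_mod_cast hpp.two_le
      have hp0 : (0 : ℝ) < p := by linarith
      have h3 : (1 : ℝ) / p ≤ 1 / 2 := one_div_le_one_div_of_le (by norm_num) h2
      have h3' : (0 : ℝ) < 1 / p := by positivity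
      have ho := hom p hpp
      have ho' : ((om P p : ℕ) : ℝ) + 1 ≤ p := by exact_mod_cast ho
      have h4 : (1 : ℝ) / p ≤ 1 - (om P p : ℝ) / p := by
        rw [le_sub_iff_add_le, ← add_div, div_le_one hp0]; linarith
      have h5 : 1 - (om P p : ℝ) / p ≤ (1 - (om P p : ℝ) / p) / (1 - 1 / (p : ℝ)) ^ k := by
        rw [le_div_iff₀ (by apply pow_pos; linarith)]
        calc (1 - (om P p : ℝ) / p) * (1 - 1 / (p : ℝ)) ^ k ≤ (1 - (om P p : ℝ) / p) * 1 :=
              mul_le_mul_of_nonneg_left (pow_le_one₀ (by linarith) (by linarith)) (by linarith)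
          _ = _ := mul_one _
      refine le_trans ?_ h5
      split_ifs with h6
      · have h7 : (p : ℝ) ≤ 2 * D := by exact_mod_cast h6
        calc 1 / (2 * (D : ℝ) + 1) * (1 - 1 / (p : ℝ)) ^ (2 * D) ≤ 1 / (2 * (D : ℝ) + 1) * 1 :=
              mul_le_mul_of_nonneg_left (pow_le_one₀ (by linarith) (by linarith)) hv.le
          _ ≤ 1 / (p : ℝ) := by
              rw [mul_one]
              apply one_div_le_one_div_of_le hp0; linarith
          _ ≤ _ := h4
      · rw [one_mul]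
        refine (pow_low D p (by omega)).trans ?_
        have h8 : om P p ≤ D := Pool.Agent.Q24.CR.om_le P hP hpp (ne_of_lt ho)
        have h9 : ((om P p : ℕ) : ℝ) ≤ D := by exact_mod_cast h8
        have h10 : (om P p : ℝ) / p ≤ (D : ℝ) / p := div_le_div_of_nonneg_right h9 hp0.le
        linarith
  refine le_trans ?_ h1
  rw [prod_mul_distrib, prod_pow]
  have h2 : (1 / (2 * (D : ℝ) + 1)) ^ (2 * D) ≤ ∏ p ∈ pz z, (if p ≤ 2 * D then 1 / (2 * (D : ℝ) + 1) else 1) := by
    rw [prod_ite, prod_const_one, mul_one, prod_const]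
    apply pow_le_pow_of_le_one hv.le
    · rw [div_le_one (by positivity)]
      have : (0 : ℝ) ≤ D := Nat.cast_nonneg _
      linarith
    · calc ((pz z).filter (fun p => p ≤ 2 * D)).card ≤ (Icc 1 (2 * D)).card := by
            apply card_le_card
            intro p hp
            rw [mem_filter, mem_pz] at hp
            rw [mem_Icc]
            exact ⟨hp.1.2.one_lt.le, hp.2⟩
        _ = 2 * D := by simp
  exact mul_le_mul_of_nonneg_right h2 (pow_nonneg (Vz_pos z).le _)

theorem slb : S_SLB := by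
  intro k D E
  obtain ⟨C, N0, hV⟩ := Vz_low
  set N1 : ℕ := max N0 1 with hN1
  have hN1' : 1 ≤ N1 := le_max_right _ _
  set c : ℝ := ((2 * (D : ℝ) + 1) * (N1 * ((E : ℝ) + 1) ^ C)) ^ (2 * D) with hc
  have hc0 : 0 < c := by rw [hc]; positivity
  have hlim : Tendsto (fun N : ℕ => Real.log (N : ℝ)) atTop atTop :=
    Real.tendsto_log_atTop.comp (tendsto_natCast_atTop_atTop (R := ℝ))
  have h3 := (Real.isLittleO_pow_log_id_atTop (n := C * (2 * D))).bound (show (0 : ℝ) < 1 / c by positivity)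
  have h4 := hlim.eventually h3
  have h5 := (Real.tendsto_log_atTop.comp hlim).eventually_ge_atTop 1
  obtain ⟨H0, h0⟩ := Filter.eventually_atTop.1 (h4.and (h5.and (hlim.eventually_ge_atTop 1)))
  refine ⟨H0, fun H hH P hP hom => ?_⟩
  obtain ⟨ha, hb, hL⟩ := h0 H hH
  set L := Real.log H with hLd
  simp only [Function.comp_apply, id] at ha hb
  rw [← hLd] at hb
  set ℓ := Real.log L with hℓ
  have hL0 : 0 < L := by linarith
  have hℓ0 : 0 < ℓ := by linarith
  rw [Real.norm_of_nonneg (by positivity), Real.norm_of_nonneg hL0.le, one_div, inv_mul_eq_div, le_div_iff₀ hc0] at ha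
  set z := ⌊L ^ E⌋₊ with hz
  have hz1 : 1 ≤ z := by
    rw [hz]; apply Nat.le_floor
    rw [Nat.cast_one]; exact one_le_pow₀ hL
  have hzL : (z : ℝ) ≤ L ^ E := Nat.floor_le (by positivity)
  set W : ℝ := N1 * (((E : ℝ) + 1) * ℓ) ^ C with hW
  have hN1r : (1 : ℝ) ≤ N1 := by exact_mod_cast hN1'
  have hE1 : (1 : ℝ) ≤ ((E : ℝ) + 1) * ℓ := by
    have : (0 : ℝ) ≤ E := Nat.cast_nonneg _
    nlinarith
  have hEC : (1 : ℝ) ≤ (((E : ℝ) + 1) * ℓ) ^ C := one_le_pow₀ hE1
  have hW0 : 0 < W := by rw [hW]; positivity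
  have hVz : 1 / W ≤ Vz z := by
    by_cases hzN : z ≤ N1
    · refine le_trans ?_ (Vz_ge z hz1)
      apply one_div_le_one_div_of_le (by exact_mod_cast hz1)
      rw [hW]
      have : (z : ℝ) ≤ N1 := by exact_mod_cast hzN
      nlinarith
    · push Not at hzN
      refine le_trans ?_ (hV z (by omega))
      have hz2 : (1 : ℝ) < z := by exact_mod_cast (by omega : 1 < z)
      have hlz : 0 < Real.log z := Real.log_pos hz2
      apply one_div_le_one_div_of_le (by positivity)
      have h6 : Real.log z ≤ (E + 1) * ℓ := by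
        have h7 := Real.log_le_log (by linarith) hzL
        rw [Real.log_pow] at h7
        linarith
      have h8 : Real.log z ^ C ≤ (((E : ℝ) + 1) * ℓ) ^ C := pow_le_pow_left₀ hlz.le h6 _
      rw [hW]
      nlinarith
  have h9 := sing_low D z P hP hom
  refine le_trans ?_ h9
  calc 1 / L ≤ (1 / (2 * (D : ℝ) + 1)) ^ (2 * D) * (1 / W) ^ (2 * D) := by
        rw [← mul_pow, one_div_mul_one_div, one_div_pow]
        apply one_div_le_one_div_of_le (by positivity)
        refine le_trans (le_of_eq ?_) ha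
        have e : ℓ ^ (C * (2 * D)) = (ℓ ^ C) ^ (2 * D) := pow_mul _ _ _
        rw [hc, hW, e, ← mul_pow]
        congr 1
        rw [mul_pow]
        ring
    _ ≤ _ := mul_le_mul_of_nonneg_left (pow_le_pow_left₀ (by positivity) hVz _) (by positivity)

end Pool.Agent.Q151.CR
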