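import Mathlib
import Pool.Agent.Q236.CR.Stm4
import Pool.Agent.H373R2.T7.Fund

set_option autoImplicit false

namespace Pool.Agent.Q151.CR.TM

open Finset Filter
open Pool.Agent.Q236.CR (SS C2 S2 S_T3M S_FND)
open Pool.Agent.H373R2.T7 (pz Vz lamz nuB PerB mem_pz Vz_pos Vz_low)

/-! ### roots of `(μ + b x)(ν + a x)` -/

open Classical in
lemma card_F (p : ℕ) [Fact p.Prime] (a b μ ν : ZMod p) (hab : ¬ (a = 0 ∧ b = 0))
    (hac : ¬ (a = 0 ∧ a * μ - b * ν = 0)) (hbc : ¬ (b = 0 ∧ a * μ - b * ν = 0)) :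
    (univ.filter (fun x : ZMod p => (μ + b * x) * (ν + a * x) = 0)).card =
      if a = 0 ∨ b = 0 ∨ a * μ - b * ν = 0 then 1 else 2 := by
  by_cases ha : a = 0
  · have hb : b ≠ 0 := fun h => hab ⟨ha, h⟩
    rw [if_pos (Or.inl ha)]
    have hν : ν ≠ 0 := by
      intro h
      apply hac
      refine ⟨ha, ?_⟩
      rw [ha, h]; ring
    rw [card_eq_one]
    refine ⟨-μ / b, ?_⟩
    ext x
    rw [mem_filter, mem_singleton, ha]
    constructor
    · rintro ⟨_, h⟩
      rcases mul_eq_zero.1 h with h | h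
      · field_simp
        linear_combination h
      · exfalso; apply hν; linear_combination h
    · intro h
      refine ⟨mem_univ _, ?_⟩
      rw [h]
      field_simp
      ring
  · by_cases hb : b = 0
    · rw [if_pos (Or.inr (Or.inl hb))]
      have hμ : μ ≠ 0 := by
        intro h
        apply hbc
        refine ⟨hb, ?_⟩
        rw [hb, h]; ring
      rw [card_eq_one]
      refine ⟨-ν / a, ?_⟩
      ext x
      rw [mem_filter, mem_singleton, hb]
      constructor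
      · rintro ⟨_, h⟩
        rcases mul_eq_zero.1 h with h | h
        · exfalso; apply hμ; linear_combination h
        · field_simp
          linear_combination h
      · intro h
        refine ⟨mem_univ _, ?_⟩
        rw [h]
        field_simp
        ring
    · have hset : univ.filter (fun x : ZMod p => (μ + b * x) * (ν + a * x) = 0) = {-μ / b, -ν / a} := by
        ext x
        rw [mem_filter, mem_insert, mem_singleton, mul_eq_zero]
        constructor
        · rintro ⟨_, h | h⟩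
          · left; field_simp; linear_combination h
          · right; field_simp; linear_combination h
        · intro h
          refine ⟨mem_univ _, ?_⟩
          rcases h with h | h
          · left; rw [h]; field_simp; ring
          · right; rw [h]; field_simp; ring
      rw [hset]
      by_cases hc : a * μ - b * ν = 0
      · rw [if_pos (Or.inr (Or.inr hc))]
        have : -μ / b = -ν / a := by
          field_simp
          linear_combination -hc
        rw [this]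
        simp
      · rw [if_neg (by tauto), card_pair]
        intro h
        apply hc
        field_simp at h
        linear_combination -h

/-- the classes -/
def QQ (a b : ℕ) (m0 n0 : ℤ) (p t : ℕ) : Prop := (p : ℤ) ∣ (m0 + b * ((t : ℤ) - 1)) * (n0 + a * ((t : ℤ) - 1))

lemma QQ_iff (a b : ℕ) (m0 n0 : ℤ) (p t : ℕ) : QQ a b m0 n0 p t ↔
    (((m0 - b : ℤ) : ZMod p) + (b : ZMod p) * (t : ZMod p)) * (((n0 - a : ℤ) : ZMod p) + (a : ZMod p) * (t : ZMod p)) = 0 := by
  unfold QQ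
  rw [← ZMod.intCast_zmod_eq_zero_iff_dvd]
  push_cast
  constructor
  · intro h; rw [← h]; ring
  · intro h; rw [← h]; ring

open Classical in
lemma nu_eq (a b : ℕ) (m0 n0 c : ℤ) (hc : a * m0 - b * n0 = c) (p : ℕ) (hp : p.Prime)
    (hab : a.Coprime b) (hac : a.Coprime c.natAbs) (hbc : b.Coprime c.natAbs) :
    nuB (QQ a b m0 n0) p = if p ∣ a * b * c.natAbs then 1 else 2 := by
  have := Fact.mk hp
  have h1 : nuB (QQ a b m0 n0) p = (univ.filter (fun x : ZMod p => ((((m0 - b : ℤ) : ZMod p)) + (b : ZMod p) * x) *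
      ((((n0 - a : ℤ) : ZMod p)) + (a : ZMod p) * x) = 0)).card := by
    unfold nuB
    apply card_nbij' (fun t : ℕ => (t : ZMod p)) (fun x : ZMod p => x.val)
    · intro t ht
      rw [mem_coe, mem_filter] at ht
      rw [mem_coe, mem_filter]
      exact ⟨mem_univ _, (QQ_iff _ _ _ _ _ _).1 ht.2⟩
    · intro x hx
      rw [mem_coe, mem_filter] at hx
      rw [mem_coe, mem_filter, mem_range]
      refine ⟨ZMod.val_lt x, ?_⟩
      rw [QQ_iff, ZMod.natCast_zmod_val]
      exact hx.2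
    · intro t ht
      rw [mem_coe, mem_filter, mem_range] at ht
      exact ZMod.val_cast_of_lt ht.1
    · intro x _
      exact ZMod.natCast_zmod_val x
  have h0 : ∀ n : ℕ, ((n : ℕ) : ZMod p) = 0 ↔ p ∣ n := fun n => ZMod.natCast_eq_zero_iff n p
  have h0c : ((c : ℤ) : ZMod p) = 0 ↔ p ∣ c.natAbs := by
    rw [ZMod.intCast_zmod_eq_zero_iff_dvd, Int.natCast_dvd]
  have hcc : (a : ZMod p) * ((m0 - b : ℤ) : ZMod p) - (b : ZMod p) * ((n0 - a : ℤ) : ZMod p) = ((c : ℤ) : ZMod p) := by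
    rw [← hc]; push_cast; ring
  rw [h1, card_F p _ _ _ _ ?_ ?_ ?_]
  · rw [hcc]
    have hiff : ((a : ZMod p) = 0 ∨ (b : ZMod p) = 0 ∨ ((c : ℤ) : ZMod p) = 0) ↔ p ∣ a * b * c.natAbs := by
      rw [h0, h0, h0c, hp.dvd_mul, hp.dvd_mul, or_assoc]
    by_cases h : p ∣ a * b * c.natAbs
    · rw [if_pos h, if_pos (hiff.2 h)]
    · rw [if_neg h, if_neg (fun h' => h (hiff.1 h'))]
  · rintro ⟨h2, h3⟩
    rw [h0] at h2 h3
    exact Nat.not_coprime_of_dvd_of_dvd hp.one_lt h2 h3 hab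
  · rw [hcc]
    rintro ⟨h2, h3⟩
    rw [h0] at h2
    rw [h0c] at h3
    exact Nat.not_coprime_of_dvd_of_dvd hp.one_lt h2 h3 hac
  · rw [hcc]
    rintro ⟨h2, h3⟩
    rw [h0] at h2
    rw [h0c] at h3
    exact Nat.not_coprime_of_dvd_of_dvd hp.one_lt h2 h3 hbc

/-! ### the constant -/

/-- partial products of the twin prime constant -/
noncomputable def Dz (z : ℕ) : ℝ := ∏ p ∈ (Finset.Icc 3 z).filter Nat.Prime, (1 - 1 / ((p : ℝ) - 1) ^ 2)

lemma fac_pos (p : ℕ) (hp : 3 ≤ p) : 0 < 1 - 1 / ((p : ℝ) - 1) ^ 2 := by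
  have : (3 : ℝ) ≤ p := by exact_mod_cast hp
  rw [sub_pos, div_lt_one (by nlinarith)]
  nlinarith

lemma Dz_pos (z : ℕ) : 0 < Dz z := by
  unfold Dz
  apply prod_pos
  intro p hp
  rw [mem_filter, mem_Icc] at hp
  exact fac_pos p hp.1.1

lemma Dz_succ (n : ℕ) (hn : 2 ≤ n) : Dz (n + 1) = Dz n ∨ Dz (n + 1) = Dz n * (1 - 1 / (n : ℝ) ^ 2) := by
  unfold Dz
  have h : Finset.Icc 3 (n + 1) = insert (n + 1) (Finset.Icc 3 n) := by
    ext x; rw [mem_insert, mem_Icc, mem_Icc]; omega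
  rw [h, filter_insert]
  by_cases hp : (n + 1).Prime
  · right
    rw [if_pos hp, prod_insert (by rw [mem_filter, mem_Icc]; omega), mul_comm]
    push_cast
    rw [add_sub_cancel_right]
  · left
    rw [if_neg hp]

lemma Dz_anti : Antitone Dz := by
  apply antitone_nat_of_succ_le
  intro n
  by_cases hn : 2 ≤ n
  · rcases Dz_succ n hn with h | h
    · rw [h]
    · rw [h]
      have h1 : 0 ≤ 1 / (n : ℝ) ^ 2 := by positivity
      have h2 := (Dz_pos n).le
      nlinarith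
  · unfold Dz
    rw [Finset.Icc_eq_empty (by omega), Finset.Icc_eq_empty (by omega)]

lemma Dz_low (z n : ℕ) (hz : 3 ≤ z) (hn : z ≤ n) : Dz z * (1 - (1 / ((z : ℝ) - 1) - 1 / ((n : ℝ) - 1))) ≤ Dz n := by
  induction n, hn using Nat.le_induction with
  | base => simp
  | succ n hn ih =>
    have hzr : (3 : ℝ) ≤ z := by exact_mod_cast hz
    have hnr : (z : ℝ) ≤ n := by exact_mod_cast hn
    have hD := Dz_pos z
    have hD' := Dz_pos n
    have e : (((n + 1 : ℕ) : ℝ) - 1) = n := by push_cast; ring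
    rw [e]
    have h1 : 1 / (n : ℝ) ≤ 1 / ((n : ℝ) - 1) := one_div_le_one_div_of_le (by linarith) (by linarith)
    have h2 : 1 / ((n : ℝ) - 1) ≤ 1 / ((z : ℝ) - 1) := one_div_le_one_div_of_le (by linarith) (by linarith)
    have h3 : 1 / ((n : ℝ) - 1) - 1 / n ≥ 1 / (n : ℝ) ^ 2 := by
      rw [ge_iff_le, div_sub_div _ _ (by linarith) (by linarith)]
      have hn0 : (0 : ℝ) < n := by linarith
      rw [div_le_div_iff₀ (by positivity) (by nlinarith)]
      nlinarith
    have h4 : 0 < 1 / (n : ℝ) ^ 2 := by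
      have : (0 : ℝ) < n := by linarith
      positivity
    rcases Dz_succ n (by omega) with h | h
    · rw [h]
      refine le_trans ?_ ih
      apply mul_le_mul_of_nonneg_left _ hD.le
      linarith
    · rw [h]
      have h5 : Dz z * (1 - (1 / ((z : ℝ) - 1) - 1 / ((n : ℝ) - 1))) * (1 - 1 / (n : ℝ) ^ 2) ≤ Dz n * (1 - 1 / (n : ℝ) ^ 2) := by
        apply mul_le_mul_of_nonneg_right ih
        have : 1 / (n : ℝ) ^ 2 ≤ 1 := by
          rw [div_le_one (by nlinarith)]; nlinarith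
        linarith
      refine le_trans ?_ h5
      rw [mul_assoc]
      apply mul_le_mul_of_nonneg_left _ hD.le
      set δ := 1 / ((z : ℝ) - 1) - 1 / ((n : ℝ) - 1) with hδ
      have hδ0 : 0 ≤ δ := by rw [hδ]; linarith
      have : 1 - (1 / ((z : ℝ) - 1) - 1 / n) = 1 - δ - (1 / ((n : ℝ) - 1) - 1 / n) := by rw [hδ]; ring
      rw [this]
      nlinarith [mul_nonneg hδ0 h4.le]

lemma C2_eq : C2 = ⨅ z : ℕ, Dz z := rfl

lemma C2_le (z : ℕ) : C2 ≤ Dz z := by
  rw [C2_eq]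
  apply ciInf_le
  refine ⟨0, ?_⟩
  rintro x ⟨y, rfl⟩
  exact (Dz_pos y).le

lemma le_C2 (z : ℕ) (hz : 3 ≤ z) : (1 - 2 / (z : ℝ)) * Dz z ≤ C2 := by
  rw [C2_eq]
  apply le_ciInf
  intro n
  have hzr : (3 : ℝ) ≤ z := by exact_mod_cast hz
  have hD := Dz_pos z
  have h0 : (0 : ℝ) < 2 / z := by positivity
  rcases le_total z n with h | h
  · refine le_trans ?_ (Dz_low z n hz h)
    rw [mul_comm]
    apply mul_le_mul_of_nonneg_left _ hD.le
    have hnr : (z : ℝ) ≤ n := by exact_mod_cast h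
    have h1 : 0 < 1 / ((n : ℝ) - 1) := one_div_pos.2 (by linarith)
    have h2 : 1 / ((z : ℝ) - 1) ≤ 2 / z := by
      rw [div_le_div_iff₀ (by linarith) (by linarith)]; linarith
    linarith
  · refine le_trans ?_ (Dz_anti h)
    nlinarith

/-! ### the finite product -/

lemma pz_eq (z : ℕ) (hz : 2 ≤ z) : pz z = insert 2 ((Finset.Icc 3 z).filter Nat.Prime) := by
  ext p
  rw [mem_pz, mem_insert, mem_filter, mem_Icc]
  constructor
  · rintro ⟨h1, h2⟩
    have := h2.two_le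
    by_cases h : p = 2
    · left; exact h
    · right; exact ⟨⟨by omega, h1⟩, h2⟩
  · rintro (h | ⟨⟨_, h2⟩, h3⟩)
    · rw [h]; exact ⟨hz, Nat.prime_two⟩
    · exact ⟨h2, h3⟩

/-- the part of the singular series at the primes `≤ z` -/
noncomputable def Rz (N z : ℕ) : ℝ := ∏ p ∈ (N.primeFactors.filter (fun p => 2 < p)).filter (fun p => p ≤ z),
  ((p : ℝ) - 1) / ((p : ℝ) - 2)

open Classical in
lemma prod_eq (N z : ℕ) (hz : 2 ≤ z) (hN : N ≠ 0) (h2 : 2 ∣ N) (ν : ℕ → ℕ)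
    (hν : ∀ p ∈ pz z, ν p = if p ∣ N then 1 else 2) :
    (Vz z)⁻¹ ^ 2 * ∏ p ∈ pz z, (1 - (ν p : ℝ) / p) = 2 * Dz z * Rz N z := by
  have h3 : (Vz z)⁻¹ ^ 2 * ∏ p ∈ pz z, (1 - (ν p : ℝ) / p) = ∏ p ∈ pz z, ((1 - 1 / (p : ℝ))⁻¹ ^ 2 * (1 - (ν p : ℝ) / p)) := by
    rw [prod_mul_distrib, prod_pow, prod_inv_distrib]; rfl
  have hRz : Rz N z = ∏ p ∈ (Finset.Icc 3 z).filter Nat.Prime, (if p ∣ N then ((p : ℝ) - 1) / ((p : ℝ) - 2) else 1) := by
    rw [← prod_filter]
    unfold Rz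
    apply prod_congr _ (fun _ _ => rfl)
    ext p
    simp only [mem_filter, mem_Icc, Nat.mem_primeFactors]
    constructor
    · rintro ⟨⟨⟨h4, h5, _⟩, h6⟩, h7⟩; exact ⟨⟨⟨h6, h7⟩, h4⟩, h5⟩
    · rintro ⟨⟨⟨h6, h7⟩, h4⟩, h5⟩; exact ⟨⟨⟨h4, h5, hN⟩, h6⟩, h7⟩
  have hnot : (2 : ℕ) ∉ (Finset.Icc 3 z).filter Nat.Prime := by rw [mem_filter, mem_Icc]; omega
  have hν2 : ν 2 = 1 := by
    rw [hν 2 (mem_pz.2 ⟨hz, Nat.prime_two⟩), if_pos h2]
  rw [h3, pz_eq z hz, prod_insert hnot, hν2, hRz]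
  unfold Dz
  have e2 : (1 - 1 / ((2 : ℕ) : ℝ))⁻¹ ^ 2 * (1 - ((1 : ℕ) : ℝ) / ((2 : ℕ) : ℝ)) = 2 := by norm_num
  rw [e2, mul_assoc, ← prod_mul_distrib]
  congr 1
  apply prod_congr rfl
  intro p hp
  have hp' : p ∈ pz z := by rw [pz_eq z hz]; exact mem_insert_of_mem hp
  rw [hν p hp']
  rw [mem_filter, mem_Icc] at hp
  have hp3 : (3 : ℝ) ≤ p := by exact_mod_cast hp.1.1
  have a1 : (p : ℝ) ≠ 0 := by linarith
  have a2 : (p : ℝ) - 1 ≠ 0 := by linarith
  have a3 : (p : ℝ) - 2 ≠ 0 := by linarith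
  have e3 : (1 - 1 / (p : ℝ))⁻¹ = p / (p - 1) := by
    rw [one_sub_div a1, inv_div]
  rw [e3]
  split_ifs
  · push_cast
    field_simp
    ring
  · push_cast
    field_simp
    ring

/-- comparison with the singular series -/
lemma S2_cmp (N z : ℕ) (L : ℝ) (hL : 1 ≤ L) (hz : 32 * L ≤ z) (hN : N ≠ 0) (hNL : Real.log N ≤ 4 * L) :
    |2 * Dz z * Rz N z - S2 N| ≤ 32 * L / z * S2 N := by
  have hzr : (32 : ℝ) ≤ z := by linarith
  have hz3 : 3 ≤ z := by
    have : (3 : ℝ) ≤ z := by linarith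
    exact_mod_cast this
  have hz0 : (0 : ℝ) < z := by linarith
  set R := Rz N z with hR
  set R' := ∏ p ∈ (N.primeFactors.filter (fun p => 2 < p)).filter (fun p => ¬ p ≤ z), ((p : ℝ) - 1) / ((p : ℝ) - 2) with hR'
  have hS : S2 N = 2 * C2 * (R * R') := by
    unfold S2
    rw [hR, hR']
    unfold Rz
    rw [prod_filter_mul_prod_filter_not]
  have hR0 : 0 < R := by
    rw [hR]
    unfold Rz
    apply prod_pos
    intro p hp
    rw [mem_filter, mem_filter] at hp
    have : (3 : ℝ) ≤ p := by exact_mod_cast hp.1.2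
    apply div_pos <;> linarith
  set F' := (N.primeFactors.filter (fun p => 2 < p)).filter (fun p => ¬ p ≤ z) with hF'
  have hp2 : ∀ p ∈ F', (z : ℝ) + 1 ≤ p := by
    intro p hp
    rw [hF', mem_filter] at hp
    exact_mod_cast (by omega : z + 1 ≤ p)
  have hR1 : 1 ≤ R' := by
    rw [hR']
    calc (1 : ℝ) = ∏ p ∈ F', (1 : ℝ) := by rw [prod_const_one]
      _ ≤ _ := by
        apply Finset.prod_le_prod (fun _ _ => zero_le_one)
        intro p hp
        have := hp2 p hp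
        rw [le_div_iff₀ (by linarith)]; linarith
  have hR2 : R' ≤ 1 + 32 * L / z := by
    have h1 : R' ≤ Real.exp (2 / z) ^ F'.card := by
      rw [hR', ← prod_const]
      apply Finset.prod_le_prod
      · intro p hp
        have := hp2 p hp
        apply div_nonneg <;> linarith
      · intro p hp
        have h2 := hp2 p hp
        have h3 : ((p : ℝ) - 1) / (p - 2) = 1 / (p - 2) + 1 := by
          rw [div_add_one (by linarith)]; ring
        rw [h3]
        refine (add_le_add (le_refl _) (le_refl _)).trans ((Real.add_one_le_exp _).trans ?_)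
        apply Real.exp_le_exp.2
        rw [div_le_div_iff₀ (by linarith) hz0]
        linarith
    have hcard : (F'.card : ℝ) ≤ 8 * L := by
      have h2 : 2 ^ F'.card ≤ N := by
        calc 2 ^ F'.card ≤ ∏ p ∈ F', p := by
              apply Finset.pow_card_le_prod
              intro p hp
              rw [hF', mem_filter, mem_filter] at hp
              omega
          _ ≤ ∏ p ∈ N.primeFactors, p := by
              apply Nat.le_of_dvd
              · exact prod_pos fun p hp => (Nat.prime_of_mem_primeFactors hp).pos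
              · apply prod_dvd_prod_of_subset
                exact (filter_subset _ _).trans (filter_subset _ _)
          _ ≤ N := Nat.le_of_dvd (Nat.pos_of_ne_zero hN) (Nat.prod_primeFactors_dvd N)
      have h3 : (2 : ℝ) ^ F'.card ≤ N := by exact_mod_cast h2
      have h4 := Real.log_le_log (by positivity) h3
      rw [Real.log_pow] at h4
      have h5 : (1 / 2 : ℝ) ≤ Real.log 2 := by linarith [Real.log_two_gt_d9]
      have h6 : (F'.card : ℝ) * (1 / 2) ≤ F'.card * Real.log 2 := mul_le_mul_of_nonneg_left h5 (Nat.cast_nonneg _)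
      linarith
    rw [← Real.exp_nat_mul] at h1
    have h7 : (F'.card : ℝ) * (2 / z) ≤ 16 * L / z := by
      rw [← mul_div_assoc]
      apply div_le_div_of_nonneg_right _ hz0.le
      linarith
    have h8 : 16 * L / z ≤ 1 := by rw [div_le_one hz0]; linarith
    have h9 : 0 ≤ 16 * L / z := by positivity
    have h10 := Real.abs_exp_sub_one_le (x := 16 * L / z) (by rw [abs_of_nonneg h9]; exact h8)
    rw [abs_of_nonneg h9] at h10
    have h11 := (abs_le.1 h10).2
    have h12 : R' ≤ Real.exp (16 * L / z) := h1.trans (Real.exp_le_exp.2 h7)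
    have h13 : 32 * L / z = 2 * (16 * L / z) := by ring
    rw [h13]; linarith
  have hC := C2_le z
  have hC' := le_C2 z hz3
  have hD := Dz_pos z
  have hC0 : 0 < C2 := lt_of_lt_of_le (mul_pos (by rw [sub_pos, div_lt_one hz0]; linarith) hD) hC'
  set y := 32 * L / z with hy
  have hy0 : 0 < y := by rw [hy]; positivity
  have hy1 : 2 / (z : ℝ) ≤ y / 16 := by
    rw [hy, div_div, div_le_div_iff₀ hz0 (by positivity)]
    nlinarith
  have hy2 : y ≤ 1 := by
    rw [hy, div_le_one hz0]; exact hz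
  rw [hS]
  have hRR : 0 < R * R' := by positivity
  rw [abs_le]
  constructor
  · -- D ≥ C2, R ≥ R R' / (1 + y) ≥ (1 - y) R R'
    have h1 : R * R' ≤ R * (1 + y) := mul_le_mul_of_nonneg_left hR2 hR0.le
    have h2 : (1 - y) * (R * R') ≤ R := by
      have : (1 - y) * (R * R') ≤ (1 - y) * (R * (1 + y)) := mul_le_mul_of_nonneg_left h1 (by linarith)
      nlinarith [mul_pos hR0 (mul_pos hy0 hy0)]
    have h3 : C2 * ((1 - y) * (R * R')) ≤ Dz z * R := by
      refine mul_le_mul hC h2 ?_ hD.le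
      have : 0 ≤ 1 - y := by linarith
      positivity
    nlinarith
  · have h1 : R ≤ R * R' := by nlinarith
    have h2 : (1 - y / 16) * Dz z ≤ C2 := by
      refine le_trans ?_ hC'
      apply mul_le_mul_of_nonneg_right _ hD.le
      linarith
    have h3 : Dz z ≤ (1 + y) * C2 := by
      have h4 : (1 + y) * ((1 - y / 16) * Dz z) ≤ (1 + y) * C2 := mul_le_mul_of_nonneg_left h2 (by linarith)
      have h5 : Dz z ≤ (1 + y) * ((1 - y / 16) * Dz z) := by
        have : 1 ≤ (1 + y) * (1 - y / 16) := by nlinarith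
        nlinarith
      linarith
    have h4 : Dz z * R ≤ (1 + y) * C2 * (R * R') := by
      exact mul_le_mul h3 h1 hR0.le (by positivity)
    nlinarith

/-! ### the solutions -/

lemma lamz_mul (z : ℕ) (m n : ℕ) [Decidable (∀ p ∈ pz z, ¬ p ∣ m * n)] : lamz z m * lamz z n = if ∀ p ∈ pz z, ¬ p ∣ m * n then (Vz z)⁻¹ ^ 2 else 0 := by
  unfold lamz
  have h : (∀ p ∈ pz z, ¬ p ∣ m * n) ↔ (∀ p ∈ pz z, ¬ p ∣ m) ∧ (∀ p ∈ pz z, ¬ p ∣ n) := by
    constructor
    · intro h
      exact ⟨fun p hp hd => h p hp (hd.mul_right n), fun p hp hd => h p hp (hd.mul_left m)⟩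
    · rintro ⟨h1, h2⟩ p hp hd
      rcases ((mem_pz.1 hp).2.dvd_mul).1 hd with h | h
      · exact h1 p hp h
      · exact h2 p hp h
  by_cases h1 : ∀ p ∈ pz z, ¬ p ∣ m
  · by_cases h2 : ∀ p ∈ pz z, ¬ p ∣ n
    · rw [if_pos h1, if_pos h2, if_pos (h.2 ⟨h1, h2⟩)]; ring
    · rw [if_neg h2, if_neg (fun h' => h2 (h.1 h').2)]; ring
  · rw [if_neg h1, if_neg (fun h' => h1 (h.1 h').1)]; ring

open Classical in
/-- parametrisation of the solutions -/
lemma param (X a b : ℕ) (c : ℤ) (ha : 1 ≤ a) (hb : 1 ≤ b) (hab : a.Coprime b) (T : ℕ) (hT : 1 ≤ T)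
    (h : ((Finset.Icc 1 X ×ˢ Finset.Icc 1 X).filter (fun t : ℕ × ℕ => (a : ℤ) * t.1 - b * t.2 = c)).card = T) :
    ∃ m0 n0 : ℕ, (a : ℤ) * m0 - b * n0 = c ∧ 1 ≤ m0 ∧ 1 ≤ n0 ∧ ∀ f : ℕ → ℕ → ℂ,
      ∑ t ∈ (Finset.Icc 1 X ×ˢ Finset.Icc 1 X).filter (fun t : ℕ × ℕ => (a : ℤ) * t.1 - b * t.2 = c), f t.1 t.2 =
        ∑ t ∈ Finset.Icc 1 T, f (m0 + b * (t - 1)) (n0 + a * (t - 1)) := by
  set S := (Finset.Icc 1 X ×ˢ Finset.Icc 1 X).filter (fun t : ℕ × ℕ => (a : ℤ) * t.1 - b * t.2 = c) with hS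
  have hne : S.Nonempty := by rw [← card_pos]; omega
  obtain ⟨x0, hx0, hmin⟩ := exists_min_image S (fun t => t.1) hne
  have hmem : ∀ t, t ∈ S ↔ (1 ≤ t.1 ∧ t.1 ≤ X) ∧ (1 ≤ t.2 ∧ t.2 ≤ X) ∧ (a : ℤ) * t.1 - b * t.2 = c := by
    intro t
    rw [hS, mem_filter, mem_product, mem_Icc, mem_Icc]
    tauto
  obtain ⟨h1, h2, h3⟩ := (hmem x0).1 hx0
  set τ := min ((X - x0.1) / b) ((X - x0.2) / a) with hτ
  have hbt : ∀ t, t ≤ τ ↔ x0.1 + b * t ≤ X ∧ x0.2 + a * t ≤ X := by
    intro t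
    rw [hτ, le_min_iff, Nat.le_div_iff_mul_le (by omega), Nat.le_div_iff_mul_le (by omega), mul_comm t b, mul_comm t a]
    omega
  have hsum : ∀ f : ℕ → ℕ → ℂ, ∑ t ∈ S, f t.1 t.2 = ∑ t ∈ Finset.Icc 1 (τ + 1), f (x0.1 + b * (t - 1)) (x0.2 + a * (t - 1)) := by
    intro f
    symm
    apply sum_nbij (fun t => (x0.1 + b * (t - 1), x0.2 + a * (t - 1)))
    · intro t ht
      rw [mem_Icc] at ht
      rw [hmem]
      have := (hbt (t - 1)).1 (by omega)
      refine ⟨⟨by simp only; omega, this.1⟩, ⟨by simp only; omega, this.2⟩, ?_⟩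
      simp only
      push_cast
      rw [← h3]
      ring
    · intro t ht t' ht' htt
      rw [mem_coe, mem_Icc] at ht ht'
      simp only [Prod.mk.injEq] at htt
      have h4 := htt.1
      have h5 : b * (t - 1) = b * (t' - 1) := by omega
      have h6 := Nat.eq_of_mul_eq_mul_left (by omega : 0 < b) h5
      omega
    · intro y hy
      rw [mem_coe] at hy
      have hy' := (hmem y).1 hy
      have hym := hmin y hy
      have e1 : (a : ℤ) * (y.1 - x0.1) = b * (y.2 - x0.2) := by linarith [hy'.2.2, h3]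
      have hdvd : (b : ℤ) ∣ (y.1 : ℤ) - x0.1 := by
        have : IsCoprime (b : ℤ) (a : ℤ) := (Nat.isCoprime_iff_coprime.2 hab).symm
        exact this.dvd_of_dvd_mul_left ⟨_, e1⟩
      obtain ⟨u, hu⟩ := hdvd
      have hu0 : 0 ≤ u := by
        have h4 : (0 : ℤ) ≤ b * u := by rw [← hu]; omega
        have hb0 : (0 : ℤ) < b := by exact_mod_cast hb
        exact nonneg_of_mul_nonneg_right h4 hb0 |> fun h => h
      obtain ⟨v, rfl⟩ := Int.eq_ofNat_of_zero_le hu0
      have e2 : (y.2 : ℤ) - x0.2 = a * v := by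
        have hb0 : (b : ℤ) ≠ 0 := by exact_mod_cast (by omega : b ≠ 0)
        apply mul_left_cancel₀ hb0
        rw [← e1, hu]; ring
      have e3 : y.1 = x0.1 + b * v := by
        have : (y.1 : ℤ) = x0.1 + b * v := by linarith
        exact_mod_cast this
      have e4 : y.2 = x0.2 + a * v := by
        have : (y.2 : ℤ) = x0.2 + a * v := by linarith
        exact_mod_cast this
      refine ⟨v + 1, ?_, ?_⟩
      · rw [mem_coe, mem_Icc]
        refine ⟨by omega, ?_⟩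
        have : v ≤ τ := (hbt v).2 ⟨by rw [← e3]; exact hy'.1.2, by rw [← e4]; exact hy'.2.1.2⟩
        omega
      · simp only [Nat.add_sub_cancel]
        rw [← e3, ← e4]
    · intro t _
      rfl
  have hcard : τ + 1 = T := by
    have h4 := hsum (fun _ _ => 1)
    rw [sum_const, sum_const, Nat.card_Icc, h] at h4
    simp only [nsmul_eq_mul, mul_one] at h4
    have h5 : T = τ + 1 + 1 - 1 := by exact_mod_cast h4
    omega
  rw [hcard] at hsum
  exact ⟨x0.1, x0.2, h3, h1.1, h2.1, hsum⟩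

open Classical in
/-- the sieve -/
lemma sieve_main (hF : S_FND) : ∃ C0 y0 : ℕ, 1 ≤ C0 ∧ ∀ (X z a b : ℕ) (c : ℤ), y0 ≤ z → 2 ≤ z → 1 ≤ a → 1 ≤ b → c ≠ 0 →
    a.Coprime b → a.Coprime c.natAbs → b.Coprime c.natAbs → 2 ∣ a * b * c.natAbs → ∀ T : ℕ,
    SS (fun _ => 1) (fun _ => 1) X a b c = T → ∀ b' : ℕ, C0 ≤ b' → z ^ (C0 * b') ≤ T →
    ‖SS (fun n => (lamz z n : ℂ)) (fun n => (lamz z n : ℂ)) X a b c -
      ((2 * Dz z * Rz (a * b * c.natAbs) z * T : ℝ) : ℂ)‖ ≤
      (1 / 2 : ℝ) ^ b' * (2 * Dz z * Rz (a * b * c.natAbs) z * T) + (Vz z)⁻¹ ^ 2 * √(T : ℝ) := by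
  obtain ⟨C0, y0, hC0, hF⟩ := hF 2 (by norm_num)
  refine ⟨C0, y0, hC0, ?_⟩
  intro X z a b c hz hz2 ha hb hc hab hac hbc h2 T hT b' hb' hzT
  set N := a * b * c.natAbs with hN
  have hN0 : N ≠ 0 := by
    rw [hN]
    have : c.natAbs ≠ 0 := Int.natAbs_ne_zero.2 hc
    positivity
  have hT1 : 1 ≤ T := le_trans (Nat.one_le_pow _ _ (by omega)) hzT
  have hTc : ((Finset.Icc 1 X ×ˢ Finset.Icc 1 X).filter (fun t : ℕ × ℕ => (a : ℤ) * t.1 - b * t.2 = c)).card = T := by
    unfold SS at hT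
    simp only [mul_one, sum_const, nsmul_eq_mul] at hT
    exact_mod_cast hT
  obtain ⟨m0, n0, h0, hm0, hn0, hsum⟩ := param X a b c ha hb hab T hT1 hTc
  have hnu := nu_eq a b m0 n0 c h0
  have hPer : PerB (QQ a b m0 n0) 2 := by
    refine ⟨?_, ?_⟩
    · intro p t
      rw [QQ_iff, QQ_iff]
      have : ((t % p : ℕ) : ZMod p) = (t : ZMod p) := ZMod.natCast_mod t p
      rw [this]
    · intro p hp
      rw [hnu p hp hab hac hbc]
      split_ifs <;> norm_num
  have hm := hF b' hb' z T hz hzT (QQ a b m0 n0) hPer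
  have hprod := prod_eq N z hz2 hN0 h2 (nuB (QQ a b m0 n0)) (fun p hp => by
    rw [hnu p (mem_pz.1 hp).2 hab hac hbc])
  have hSS : SS (fun n => (lamz z n : ℂ)) (fun n => (lamz z n : ℂ)) X a b c =
      (((Vz z)⁻¹ ^ 2 * ((((Finset.Icc 1 T).filter (fun n : ℕ => ∀ p ∈ pz z, ¬ QQ a b m0 n0 p n)).card : ℕ) : ℝ) : ℝ) : ℂ) := by
    unfold SS
    rw [hsum (fun m n => (lamz z m : ℂ) * (lamz z n : ℂ))]
    have h5 : ∀ t ∈ Finset.Icc 1 T, (lamz z (m0 + b * (t - 1)) : ℂ) * (lamz z (n0 + a * (t - 1)) : ℂ) =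
        ((if ∀ p ∈ pz z, ¬ QQ a b m0 n0 p t then (Vz z)⁻¹ ^ 2 else 0 : ℝ) : ℂ) := by
      intro t ht
      rw [mem_Icc] at ht
      rw [← Complex.ofReal_mul, lamz_mul]
      congr 1
      have h6 : ∀ p, QQ a b m0 n0 p t ↔ p ∣ (m0 + b * (t - 1)) * (n0 + a * (t - 1)) := by
        intro p
        unfold QQ
        rw [← Int.natCast_dvd_natCast]
        push_cast [Nat.cast_sub ht.1]
        rfl
      simp only [h6]
    rw [sum_congr rfl h5, ← Complex.ofReal_sum, sum_ite, sum_const_zero, add_zero, sum_const, nsmul_eq_mul, mul_comm]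
  rw [hSS, ← Complex.ofReal_sub, Complex.norm_real, Real.norm_eq_abs]
  set W : ℝ := (Vz z)⁻¹ ^ 2 with hW
  have hW0 : 0 ≤ W := by rw [hW]; positivity
  set P : ℝ := ∏ p ∈ pz z, (1 - (nuB (QQ a b m0 n0) p : ℝ) / p) with hP
  rw [← hprod]
  have h7 := mul_le_mul_of_nonneg_left hm hW0
  rw [← abs_of_nonneg hW0, ← abs_mul] at h7
  rw [abs_of_nonneg hW0] at h7
  have e1 : W * (((((Finset.Icc 1 T).filter (fun n : ℕ => ∀ p ∈ pz z, ¬ QQ a b m0 n0 p n)).card : ℕ) : ℝ) - T * P) =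
      W * ((((Finset.Icc 1 T).filter (fun n : ℕ => ∀ p ∈ pz z, ¬ QQ a b m0 n0 p n)).card : ℕ) : ℝ) - W * P * T := by ring
  have e2 : W * ((1 / 2 : ℝ) ^ b' * (T * P) + √(T : ℝ)) = (1 / 2 : ℝ) ^ b' * (W * P * T) + W * √(T : ℝ) := by ring
  rw [← e1, ← e2]
  exact h7

theorem t3m : S_FND → S_T3M := by
  classical
  intro hF U E
  obtain ⟨C0, y0, hC0, hS⟩ := sieve_main hF
  obtain ⟨C, N0, hV⟩ := Vz_low
  have hlim : Tendsto (fun N : ℕ => Real.log (N : ℝ)) atTop atTop :=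
    Real.tendsto_log_atTop.comp (tendsto_natCast_atTop_atTop (R := ℝ))
  have h3 := (Real.isLittleO_pow_log_id_atTop (n := C)).bound (show (0 : ℝ) < 1 / ((E : ℝ) + 1) ^ C by positivity)
  have h4 := hlim.eventually h3
  have h5 := (Real.tendsto_log_atTop.comp hlim).eventually_ge_atTop 1
  obtain ⟨X0, h0⟩ := Filter.eventually_atTop.1 (h4.and (h5.and (hlim.eventually_ge_atTop ((y0 : ℝ) + N0 + 100))))
  refine ⟨C0, X0, hC0, ?_⟩
  intro X hX z hz1 hz2 a b c ha hb haX hbX hc hcX hab hac hbc h2 T hT b' hb' hzT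
  obtain ⟨g1, g2, g3⟩ := h0 X hX
  set L := Real.log X with hL
  simp only [Function.comp_apply, id] at g1 g2
  rw [← hL] at g2
  set ℓ := Real.log L with hℓ
  have hy00 : (0 : ℝ) ≤ y0 := Nat.cast_nonneg _
  have hN00 : (0 : ℝ) ≤ N0 := Nat.cast_nonneg _
  have hL100 : 100 ≤ L := by linarith
  have hL1 : 1 ≤ L := by linarith
  have hL0 : 0 < L := by linarith
  have hℓ0 : 0 < ℓ := by linarith
  rw [Real.norm_of_nonneg (by positivity), Real.norm_of_nonneg hL0.le, one_div, inv_mul_eq_div,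
    le_div_iff₀ (by positivity)] at g1
  have hzL : L ≤ z := by
    refine le_trans ?_ hz1
    calc L = L ^ 1 := (pow_one L).symm
      _ ≤ L ^ (U + 4) := pow_le_pow_right₀ hL1 (by omega)
  have hzy : y0 ≤ z := by
    have : (y0 : ℝ) ≤ z := by linarith
    exact_mod_cast this
  have hzN : N0 ≤ z := by
    have : (N0 : ℝ) ≤ z := by linarith
    exact_mod_cast this
  have hz2' : 2 ≤ z := by
    have : (2 : ℝ) ≤ z := by linarith
    exact_mod_cast this
  have hm := hS X z a b c hzy hz2' ha hb hc hab hac hbc h2 T hT b' hb' hzT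
  set N := a * b * c.natAbs with hN
  have hc0 : c.natAbs ≠ 0 := Int.natAbs_ne_zero.2 hc
  have hN0 : N ≠ 0 := by rw [hN]; positivity
  have hX0 : (0 : ℝ) < X := by
    have : 1 ≤ X := ha.trans haX
    exact_mod_cast this
  have hNL : Real.log N ≤ 4 * L := by
    have h6 : N ≤ X ^ 4 := by
      have h7 : c.natAbs ≤ X ^ 2 := by
        have : ((c.natAbs : ℕ) : ℤ) ≤ ((X ^ 2 : ℕ) : ℤ) := by
          rw [Int.natCast_natAbs]; push_cast; exact hcX
        exact_mod_cast this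
      calc N ≤ X * X * X ^ 2 := Nat.mul_le_mul (Nat.mul_le_mul haX hbX) h7
        _ = X ^ 4 := by ring
    have h8 : (N : ℝ) ≤ (X : ℝ) ^ 4 := by exact_mod_cast h6
    have h9 := Real.log_le_log (by positivity) h8
    rw [Real.log_pow] at h9
    exact_mod_cast h9
  have hz32 : 32 * L ≤ z := by
    refine le_trans ?_ hz1
    calc 32 * L ≤ L ^ 2 := by nlinarith
      _ ≤ L ^ (U + 4) := pow_le_pow_right₀ hL1 (by omega)
  have hcmp := S2_cmp N z L hL1 hz32 hN0 hNL
  set P := 2 * Dz z * Rz N z with hP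
  set S := S2 N with hSd
  have hP0 : 0 ≤ P := by
    rw [hP]
    have := Dz_pos z
    have hR : 0 ≤ Rz N z := by
      unfold Rz
      apply prod_nonneg
      intro p hp
      rw [mem_filter, mem_filter] at hp
      have : (3 : ℝ) ≤ p := by exact_mod_cast hp.1.2
      apply div_nonneg <;> linarith
    positivity
  have hLU : 0 < L ^ U := by positivity
  have hz0 : (0 : ℝ) < z := by linarith
  -- `32 L / z ≤ 1 / (4 L^U)`
  have hy : 32 * L / z ≤ 1 / (4 * L ^ U) := by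
    rw [div_le_div_iff₀ hz0 (by positivity), one_mul]
    refine le_trans ?_ hz1
    calc 32 * L * (4 * L ^ U) = L ^ U * (128 * L) := by ring
      _ ≤ L ^ U * L ^ 4 := by
          apply mul_le_mul_of_nonneg_left _ hLU.le
          have : (128 : ℝ) ≤ L ^ 3 := by
            calc (128 : ℝ) ≤ 100 ^ 3 := by norm_num
              _ ≤ L ^ 3 := pow_le_pow_left₀ (by norm_num) hL100 3
          calc 128 * L ≤ L ^ 3 * L := mul_le_mul_of_nonneg_right this hL0.le
            _ = L ^ 4 := by ring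
      _ = L ^ (U + 4) := by rw [← pow_add]
  set y := 32 * L / z with hyd
  have hy0 : 0 < y := by rw [hyd]; positivity
  have hyq : y ≤ 1 / 4 := by
    refine hy.trans ?_
    rw [div_le_div_iff₀ (by positivity) (by norm_num)]
    have : 1 ≤ L ^ U := one_le_pow₀ hL1
    linarith
  obtain ⟨hc1, hc2⟩ := abs_le.1 hcmp
  have hS0 : 0 ≤ S := by
    by_contra h
    push Not at h
    nlinarith
  have hP2 : P ≤ (1 + y) * S := by linarith
  -- `Vz`
  have hVz : (Vz z)⁻¹ ^ 2 ≤ L ^ 2 := by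
    apply pow_le_pow_left₀ (inv_nonneg.2 (Vz_pos z).le)
    have hlz : 0 < Real.log z := Real.log_pos (by linarith)
    have h6 := hV z hzN
    have h7 : (Vz z)⁻¹ ≤ Real.log z ^ C := by
      rw [inv_le_comm₀ (Vz_pos z) (by positivity), ← one_div]; exact h6
    refine h7.trans ?_
    have h8 : Real.log z ≤ (E + 1) * ℓ := by
      have h9 := Real.log_le_log hz0 hz2
      rw [Real.log_pow] at h9
      linarith
    calc Real.log z ^ C ≤ ((E + 1) * ℓ) ^ C := pow_le_pow_left₀ hlz.le h8 _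
      _ = ℓ ^ C * ((E : ℝ) + 1) ^ C := by rw [mul_pow]; ring
      _ ≤ L := g1
  have hT0 : (0 : ℝ) ≤ T := Nat.cast_nonneg _
  have htri : ‖SS (fun n => (lamz z n : ℂ)) (fun n => (lamz z n : ℂ)) X a b c - S * T‖ ≤
      ‖SS (fun n => (lamz z n : ℂ)) (fun n => (lamz z n : ℂ)) X a b c - ((P * T : ℝ) : ℂ)‖ + |P - S| * T := by
    have e : SS (fun n => (lamz z n : ℂ)) (fun n => (lamz z n : ℂ)) X a b c - S * T =
        (SS (fun n => (lamz z n : ℂ)) (fun n => (lamz z n : ℂ)) X a b c - ((P * T : ℝ) : ℂ)) + (((P - S) * T : ℝ) : ℂ) := by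
      push_cast; ring
    rw [e]
    refine (norm_add_le _ _).trans ?_
    rw [Complex.norm_real ((P - S) * T), Real.norm_eq_abs, abs_mul, abs_of_nonneg hT0]
  refine htri.trans ?_
  have hb0 : (0 : ℝ) ≤ (1 / 2 : ℝ) ^ b' := by positivity
  have hb1 : (1 / 2 : ℝ) ^ b' ≤ 1 := pow_le_one₀ (by norm_num) (by norm_num)
  have k1 : (1 / 2 : ℝ) ^ b' * (P * T) ≤ (1 / 2 : ℝ) ^ b' * (S * T) + y * (S * T) := by
    have hST : 0 ≤ S * T := mul_nonneg hS0 hT0
    have h6 : P * T ≤ (1 + y) * (S * T) := by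
      calc P * T ≤ ((1 + y) * S) * T := mul_le_mul_of_nonneg_right hP2 hT0
        _ = _ := by ring
    calc (1 / 2 : ℝ) ^ b' * (P * T) ≤ (1 / 2 : ℝ) ^ b' * ((1 + y) * (S * T)) := mul_le_mul_of_nonneg_left h6 hb0
      _ = (1 / 2 : ℝ) ^ b' * (S * T) + (1 / 2 : ℝ) ^ b' * (y * (S * T)) := by ring
      _ ≤ (1 / 2 : ℝ) ^ b' * (S * T) + 1 * (y * (S * T)) := by
          apply add_le_add_right
          exact mul_le_mul_of_nonneg_right hb1 (mul_nonneg hy0.le hST)
      _ = _ := by ring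
  have k2 : |P - S| * T ≤ y * (S * T) := by
    calc |P - S| * T ≤ (y * S) * T := mul_le_mul_of_nonneg_right hcmp hT0
      _ = _ := by ring
  have k3 : (Vz z)⁻¹ ^ 2 * √(T : ℝ) ≤ L ^ 2 * √(T : ℝ) := mul_le_mul_of_nonneg_right hVz (Real.sqrt_nonneg _)
  have k4 : 2 * y * (S * T) ≤ 1 / L ^ U * (S * T) := by
    apply mul_le_mul_of_nonneg_right _ (mul_nonneg hS0 hT0)
    have : 2 * y ≤ 2 * (1 / (4 * L ^ U)) := by linarith
    refine this.trans ?_
    rw [mul_one_div, div_le_div_iff₀ (by positivity) hLU]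
    linarith
  linarith

end Pool.Agent.Q151.CR.TM
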