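import Mathlib
import Pool.Agent.Q236.CR.Stm3

set_option autoImplicit false

namespace Pool.Agent.Q151.CR

open Finset Filter Polynomial MeasureTheory
open Pool.Agent.Q236.CR (psi S_TV)

/-- intervals of bounded overlap in `(0, M)` -/
lemma overlap (S : Finset ℕ) (a b : ℕ → ℝ) (M : ℝ) (D : ℕ) (hM : 0 ≤ M) (hab : ∀ n ∈ S, a n ≤ b n)
    (h0 : ∀ n ∈ S, 0 ≤ a n) (hb : ∀ n ∈ S, b n ≤ M)
    (h : ∀ t : ℝ, 0 < t → t < M → (S.filter (fun n => t ∈ Set.Ioo (a n) (b n))).card ≤ D) :
    ∑ n ∈ S, (b n - a n) ≤ D * M := by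
  classical
  have h1 : ∀ n ∈ S, ENNReal.ofReal (b n - a n) = ∫⁻ t : ℝ, (Set.Ioo (a n) (b n)).indicator 1 t := by
    intro n _
    rw [lintegral_indicator_one measurableSet_Ioo, Real.volume_Ioo]
  have h2 : ENNReal.ofReal (∑ n ∈ S, (b n - a n)) ≤ ENNReal.ofReal (D * M) := by
    rw [ENNReal.ofReal_sum_of_nonneg (fun n hn => by linarith [hab n hn]), sum_congr rfl h1,
      ← lintegral_finsetSum S (fun n _ => measurable_one.indicator measurableSet_Ioo)]
    calc ∫⁻ t : ℝ, ∑ n ∈ S, (Set.Ioo (a n) (b n)).indicator (1 : ℝ → ENNReal) t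
        ≤ ∫⁻ t : ℝ, (Set.Ioo (0 : ℝ) M).indicator (fun _ => (D : ENNReal)) t := by
          apply lintegral_mono
          intro t
          by_cases ht : t ∈ Set.Ioo (0 : ℝ) M
          · simp only
            rw [Set.indicator_of_mem ht]
            have e : ∑ n ∈ S, (Set.Ioo (a n) (b n)).indicator (1 : ℝ → ENNReal) t =
                ((S.filter (fun n => t ∈ Set.Ioo (a n) (b n))).card : ENNReal) := by
              rw [card_eq_sum_ones, Nat.cast_sum, sum_filter]
              apply sum_congr rfl
              intro n _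
              by_cases hh : t ∈ Set.Ioo (a n) (b n)
              · simp only [Set.indicator_of_mem hh, if_pos hh]; simp
              · simp only [Set.indicator_of_notMem hh, if_neg hh]
            rw [e]
            exact_mod_cast h t ht.1 ht.2
          · simp only
            rw [Set.indicator_of_notMem ht]
            apply le_of_eq
            apply sum_eq_zero
            intro n hn
            apply Set.indicator_of_notMem
            rintro ⟨h3, h4⟩
            exact ht ⟨lt_of_le_of_lt (h0 n hn) h3, lt_of_lt_of_le h4 (hb n hn)⟩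
      _ = ENNReal.ofReal (D * M) := by
          rw [lintegral_indicator_const measurableSet_Ioo, Real.volume_Ioo, sub_zero,
            ENNReal.ofReal_mul (Nat.cast_nonneg _), ENNReal.ofReal_natCast]
  exact (ENNReal.ofReal_le_ofReal_iff (by positivity)).1 h2

theorem tv : S_TV := by
  intro P d K Y hd hY
  classical
  have hY0 : 0 < Y := by linarith
  have hlY : 0 < Real.log Y := Real.log_pos (by linarith)
  set R : ℝ[X] := P.map (Int.castRingHom ℝ) with hR
  have hRe : ∀ n : ℕ, R.eval (n : ℝ) = ((P.eval (n : ℤ) : ℤ) : ℝ) := by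
    intro n
    rw [hR]
    have := Polynomial.eval_intCast_map (Int.castRingHom ℝ) P (n : ℤ)
    simpa using this
  set f : ℝ → ℝ := fun x => 1 / Real.log (max |R.eval x| Y) with hf
  have hmax : ∀ x : ℝ, Y ≤ max |R.eval x| Y := fun x => le_max_right _ _
  have hlog : ∀ x : ℝ, Real.log Y ≤ Real.log (max |R.eval x| Y) := fun x => Real.log_le_log hY0 (hmax x)
  have hfc : Continuous f := by
    rw [hf]
    apply Continuous.div continuous_const
    · apply Continuous.log
      · exact (continuous_abs.comp R.continuous).max continuous_const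
      · intro x
        exact (lt_of_lt_of_le hY0 (hmax x)).ne'
    · intro x
      exact (lt_of_lt_of_le hlY (hlog x)).ne'
  have hpsi : ∀ n : ℕ, psi P Y n = f n := by
    intro n
    unfold psi
    rw [hf]
    simp only
    rw [hRe]
  have hf0 : ∀ x, 0 < f x := fun x => by
    rw [hf]
    exact one_div_pos.2 (lt_of_lt_of_le hlY (hlog x))
  have hf1 : ∀ x, f x ≤ 1 / Real.log Y := fun x => by
    rw [hf]
    exact one_div_le_one_div_of_le hlY (hlog x)
  have key := overlap (Ico 1 K) (fun n => min (f n) (f ((n + 1 : ℕ) : ℝ))) (fun n => max (f n) (f ((n + 1 : ℕ) : ℝ)))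
    (1 / Real.log Y) (2 * d) (by positivity) (fun n _ => min_le_max) (fun n _ => le_min (hf0 _).le (hf0 _).le)
    (fun n _ => max_le (hf1 _) (hf1 _)) (by
    intro t ht0 ht1
    -- the root in (n, n+1)
    have hex : ∀ n ∈ (Ico 1 K).filter (fun n : ℕ => t ∈ Set.Ioo (min (f n) (f ((n + 1 : ℕ) : ℝ)))
        (max (f n) (f ((n + 1 : ℕ) : ℝ)))), ∃ x : ℝ, (n : ℝ) < x ∧ x < n + 1 ∧ f x = t := by
      intro n hn
      rw [mem_filter] at hn
      have h1 := intermediate_value_uIcc (a := (n : ℝ)) (b := ((n + 1 : ℕ) : ℝ)) (f := f) hfc.continuousOn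
      have h2 : t ∈ Set.uIcc (f n) (f ((n + 1 : ℕ) : ℝ)) := by
        rw [Set.uIcc, Set.mem_Icc]
        exact ⟨hn.2.1.le, hn.2.2.le⟩
      obtain ⟨x, hx, hxt⟩ := h1 h2
      rw [Set.uIcc_of_le (by push_cast; linarith)] at hx
      refine ⟨x, ?_, ?_, hxt⟩
      · apply lt_of_le_of_ne hx.1
        intro h
        rw [← h] at hxt
        have h3 := hn.2
        rw [← hxt] at h3
        rcases le_total (f n) (f ((n + 1 : ℕ) : ℝ)) with h4 | h4
        · rw [min_eq_left h4] at h3; exact lt_irrefl _ h3.1
        · rw [max_eq_left h4] at h3; exact lt_irrefl _ h3.2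
      · have h5 : x ≠ ((n + 1 : ℕ) : ℝ) := by
          intro h
          rw [h] at hxt
          have h3 := hn.2
          rw [← hxt] at h3
          rcases le_total (f n) (f ((n + 1 : ℕ) : ℝ)) with h4 | h4
          · rw [max_eq_right h4] at h3; exact lt_irrefl _ h3.2
          · rw [min_eq_right h4] at h3; exact lt_irrefl _ h3.1
        have h6 := lt_of_le_of_ne hx.2 h5
        push_cast at h6
        exact h6
    choose! g hg using hex
    set u : ℝ := Real.exp (1 / t) with hu
    set Q : ℝ[X] := R ^ 2 - C (u ^ 2) with hQ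
    have hval : ∀ x : ℝ, f x = t → R.eval x ^ 2 = u ^ 2 := by
      intro x hx
      have h1 : Real.log (max |R.eval x| Y) = 1 / t := by
        rw [← hx, hf]; simp
      have h2 : max |R.eval x| Y = u := by
        rw [hu, ← h1, Real.exp_log (lt_of_lt_of_le hY0 (hmax x))]
      have h3 : Y < u := by
        rw [hu, ← Real.log_lt_iff_lt_exp hY0]
        rw [lt_div_iff₀ ht0]
        rw [lt_div_iff₀ hlY] at ht1
        linarith
      have h4 : |R.eval x| = u := by
        rcases max_choice |R.eval x| Y with h | h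
        · rw [← h2, h]
        · rw [h] at h2; exact absurd h2 h3.ne
      rw [← h4, sq_abs]
    by_cases hQ0 : Q = 0
    · -- then f is constant
      have h1 : ∀ x : ℝ, R.eval x ^ 2 = u ^ 2 := by
        intro x
        have h2 : Q.eval x = 0 := by rw [hQ0]; simp
        rw [hQ, eval_sub, eval_pow, eval_C] at h2
        linarith
      have h3 : ∀ x y : ℝ, f x = f y := by
        intro x y
        have h4 : |R.eval x| = |R.eval y| := by
          rw [← sq_eq_sq_iff_abs_eq_abs, h1, h1]
        rw [hf]
        simp only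
        rw [h4]
      rw [filter_false_of_mem]
      · simp
      · intro n _ h4
        rw [h3 ((n + 1 : ℕ) : ℝ) n] at h4
        simp only [min_self, max_self, Set.Ioo_self] at h4
        exact h4
    · have h1 : ((Ico 1 K).filter (fun n : ℕ => t ∈ Set.Ioo (min (f n) (f ((n + 1 : ℕ) : ℝ)))
        (max (f n) (f ((n + 1 : ℕ) : ℝ))))).card ≤ Q.roots.toFinset.card := by
        apply card_le_card_of_injOn g
        · intro n hn
          rw [mem_coe] at hn
          obtain ⟨_, _, h3⟩ := hg n hn
          rw [mem_coe, Multiset.mem_toFinset, mem_roots hQ0, IsRoot.def, hQ, eval_sub, eval_pow, eval_C, hval _ h3,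
            sub_self]
        · intro n hn m hm hnm
          rw [mem_coe] at hn hm
          obtain ⟨a1, a2, _⟩ := hg n hn
          obtain ⟨b1, b2, _⟩ := hg m hm
          rw [← hnm] at b1 b2
          have c1 : (n : ℝ) < m + 1 := by linarith
          have c2 : (m : ℝ) < n + 1 := by linarith
          have c3 : n < m + 1 := by exact_mod_cast c1
          have c4 : m < n + 1 := by exact_mod_cast c2
          omega
      have h2 : Q.roots.toFinset.card ≤ Q.natDegree := (Multiset.toFinset_card_le _).trans (card_roots' Q)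
      have h3 : Q.natDegree ≤ 2 * d := by
        rw [hQ, natDegree_sub_C]
        refine natDegree_pow_le.trans ?_
        have : R.natDegree ≤ d := (natDegree_map_le).trans hd
        omega
      exact h1.trans (h2.trans h3))
  have e : ∀ n ∈ Ico 1 K, |psi P Y (n + 1) - psi P Y n| =
      max (f n) (f ((n + 1 : ℕ) : ℝ)) - min (f n) (f ((n + 1 : ℕ) : ℝ)) := by
    intro n _
    rw [hpsi, hpsi, max_sub_min_eq_abs, abs_sub_comm]
  rw [sum_congr rfl e]
  refine key.trans (le_of_eq ?_)
  push_cast
  ring

end Pool.Agent.Q151.CR
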